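import Mathlib

open Set Filter Topology

namespace X198KS

variable {X : Type*} [TopologicalSpace X]

/-- A continuous tournament: `R a b` means that `a` is the chosen point of the pair. -/
structure IsT (R : X → X → Prop) : Prop where
  asymm : ∀ a b, R a b → ¬ R b a
  total : ∀ a b, a ≠ b → R a b ∨ R b a
  isOpen : IsOpen {p : X × X | R p.1 p.2}

/-- the king property in terms of tournaments -/
def Kings (X : Type*) [TopologicalSpace X] : Prop :=
  ∀ R : X → X → Prop, IsT R → ∃ z, ∀ x, ∃ y, (y = z ∨ R y z) ∧ (x = y ∨ R x y)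

theorem IsT.flip {R : X → X → Prop} (h : IsT R) : IsT (fun a b => R b a) where
  asymm _ _ := fun h1 h2 => h.asymm _ _ h1 h2
  total a b hab := (h.total a b hab).symm
  isOpen := h.isOpen.preimage continuous_swap

theorem IsT.irrefl {R : X → X → Prop} (h : IsT R) (a : X) : ¬ R a a := fun h1 => h.asymm _ _ h1 h1

theorem IsT.ne {R : X → X → Prop} (h : IsT R) {a b : X} (hab : R a b) : a ≠ b := by
  rintro rfl; exact h.irrefl _ hab

/-- neighbourhoods -/
theorem IsT.nhds {R : X → X → Prop} (h : IsT R) {a b : X} (hab : R a b) :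
    ∃ U V : Set X, IsOpen U ∧ IsOpen V ∧ a ∈ U ∧ b ∈ V ∧ ∀ u ∈ U, ∀ v ∈ V, R u v := by
  obtain ⟨U, V, hU, hV, ha, hb, hUV⟩ := isOpen_prod_iff.1 h.isOpen a b hab
  exact ⟨U, V, hU, hV, ha, hb, fun u hu v hv => hUV (Set.mk_mem_prod hu hv)⟩

theorem IsT.openL {R : X → X → Prop} (h : IsT R) (b : X) : IsOpen {a | R a b} :=
  h.isOpen.preimage (Continuous.prodMk_left b)

theorem IsT.openR {R : X → X → Prop} (h : IsT R) (a : X) : IsOpen {b | R a b} :=
  h.isOpen.preimage (Continuous.prodMk_right a)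

/-- tube lemma -/
theorem IsT.tube {R : X → X → Prop} (h : IsT R) {a : X} {K : Set X} (hK : IsCompact K)
    (hab : ∀ b ∈ K, R a b) :
    ∃ U V : Set X, IsOpen U ∧ IsOpen V ∧ a ∈ U ∧ K ⊆ V ∧ ∀ u ∈ U, ∀ v ∈ V, R u v := by
  obtain ⟨U, V, hU, hV, ha, hb, hUV⟩ := generalized_tube_lemma (s := {a}) (t := K)
    isCompact_singleton hK h.isOpen (by
      rintro ⟨u, v⟩ ⟨hu, hv⟩
      simp only [mem_singleton_iff] at hu
      subst hu
      exact hab v hv)
  exact ⟨U, V, hU, hV, ha rfl, hb, fun u hu v hv => hUV (Set.mk_mem_prod hu hv)⟩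

theorem IsT.modify {R : X → X → Prop} (h : IsT R) {r : X → ℕ} (hr : Continuous r) :
    IsT (fun x y => r x < r y ∨ (r x = r y ∧ R x y)) where
  asymm a b := by
    rintro (h1 | ⟨h1, h2⟩) (h3 | ⟨h3, h4⟩)
    · omega
    · omega
    · omega
    · exact h.asymm _ _ h2 h4
  total a b hab := by
    rcases lt_trichotomy (r a) (r b) with h1 | h1 | h1
    · exact Or.inl (Or.inl h1)
    · rcases h.total a b hab with h2 | h2
      · exact Or.inl (Or.inr ⟨h1, h2⟩)
      · exact Or.inr (Or.inr ⟨h1.symm, h2⟩)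
    · exact Or.inr (Or.inl h1)
  isOpen := by
    have h1 : IsOpen {p : X × X | r p.1 < r p.2} := by
      have : Continuous (fun p : X × X => (r p.1, r p.2)) :=
        (hr.comp continuous_fst).prodMk (hr.comp continuous_snd)
      exact (isOpen_discrete {q : ℕ × ℕ | q.1 < q.2}).preimage this
    have h2 : IsOpen {p : X × X | r p.1 = r p.2} := by
      have : Continuous (fun p : X × X => (r p.1, r p.2)) :=
        (hr.comp continuous_fst).prodMk (hr.comp continuous_snd)
      exact (isOpen_discrete {q : ℕ × ℕ | q.1 = q.2}).preimage this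
    exact h1.union (h2.inter h.isOpen)

/-- every continuous function to `ℕ` is bounded -/
theorem Kings.bdd (hX : Kings X) {R : X → X → Prop} (h : IsT R) {r : X → ℕ} (hr : Continuous r) :
    ∃ M, ∀ x, r x ≤ M := by
  obtain ⟨z, hz⟩ := hX _ (h.modify hr)
  refine ⟨r z, fun x => ?_⟩
  obtain ⟨y, h1, h2⟩ := hz x
  have h3 : r y ≤ r z := by
    rcases h1 with rfl | h1 | h1
    · exact le_rfl
    · exact h1.le
    · exact h1.1.le
  have h4 : r x ≤ r y := by
    rcases h2 with rfl | h1 | h1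
    · exact le_rfl
    · exact h1.le
    · exact h1.1.le
  exact h4.trans h3

open Classical in
/-- the indicator of a clopen set is continuous -/
theorem cont_ind {L : Set X} (hL : IsClopen L) : Continuous (fun x => if x ∈ L then (1 : ℕ) else 0) := by
  refine continuous_const.if ?_ continuous_const
  intro a ha
  have : frontier {x | x ∈ L} = ∅ := hL.frontier_eq
  rw [this] at ha
  exact absurd ha (by simp)

open Classical in
/-- kings of clopen subsets -/
theorem Kings.clopen (hX : Kings X) {R : X → X → Prop} (h : IsT R) {L : Set X} (hL : IsClopen L)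
    (hne : L.Nonempty) :
    ∃ z ∈ L, ∀ x ∈ L, ∃ y ∈ L, (y = z ∨ R y z) ∧ (x = y ∨ R x y) := by
  obtain ⟨z, hz⟩ := hX _ (h.modify (cont_ind hL))
  have key : ∀ x ∈ L, z ∈ L ∧ ∃ y ∈ L, (y = z ∨ R y z) ∧ (x = y ∨ R x y) := by
    intro x hx
    obtain ⟨y, h1, h2⟩ := hz x
    have hy : y ∈ L ∧ (x = y ∨ R x y) := by
      rcases h2 with rfl | h2 | h2
      · exact ⟨hx, Or.inl rfl⟩
      · simp only [if_pos hx] at h2
        split_ifs at h2 <;> omega
      · simp only [if_pos hx] at h2
        by_contra hc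
        have : y ∉ L := fun hy => hc ⟨hy, Or.inr h2.2⟩
        simp only [if_neg this] at h2
        omega
    have hz : z ∈ L ∧ (y = z ∨ R y z) := by
      rcases h1 with rfl | h2 | h2
      · exact ⟨hy.1, Or.inl rfl⟩
      · simp only [if_pos hy.1] at h2
        split_ifs at h2 <;> omega
      · simp only [if_pos hy.1] at h2
        by_contra hc
        have : z ∉ L := fun hy => hc ⟨hy, Or.inr h2.2⟩
        simp only [if_neg this] at h2
        omega
    exact ⟨hz.1, y, hy.1, hz.2, hy.2⟩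
  obtain ⟨x, hx⟩ := hne
  exact ⟨z, (key x hx).1, fun x hx => (key x hx).2⟩

/-- a connected set is on one side of any outside point -/
theorem IsT.const {R : X → X → Prop} (h : IsT R) {C : Set X} (hC : IsPreconnected C) {y : X}
    (hy : y ∉ C) : (∀ c ∈ C, R c y) ∨ (∀ c ∈ C, R y c) := by
  by_contra hcon
  push Not at hcon
  obtain ⟨⟨c, hc, hc1⟩, ⟨d, hd, hd1⟩⟩ := hcon
  have hne : ∀ c ∈ C, c ≠ y := fun c hc => by rintro rfl; exact hy hc
  have hc2 : R y c := (h.total c y (hne c hc)).resolve_left hc1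
  have hd2 : R d y := (h.total d y (hne d hd)).resolve_right hd1
  obtain ⟨e, he, he1, he2⟩ := hC {a | R a y} {a | R y a} (h.openL y) (h.openR y)
    (fun a ha => h.total a y (hne a ha)) ⟨d, hd, hd2⟩ ⟨c, hc, hc2⟩
  exact h.asymm _ _ he1 he2

/-- upward/downward parts of connected sets are connected -/
theorem IsT.cut {R : X → X → Prop} (h : IsT R) {C : Set X} (hC : IsPreconnected C) {y : X}
    (hy : y ∈ C) : IsPreconnected {c | c ∈ C ∧ (c = y ∨ R y c)} := by
  have main : ∀ u v : Set X, IsOpen u → IsOpen v → {c | c ∈ C ∧ (c = y ∨ R y c)} ⊆ u ∪ v →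
      ({c | c ∈ C ∧ (c = y ∨ R y c)} ∩ v).Nonempty → y ∈ u →
      ({c | c ∈ C ∧ (c = y ∨ R y c)} ∩ (u ∩ v)).Nonempty := by
    intro u v hu hv hsub hne hyu
    obtain ⟨s, ⟨hsC, hs⟩, hsv⟩ := hne
    by_contra hcon
    have hs' : R y s := by
      rcases hs with rfl | hs
      · exact absurd ⟨s, ⟨hsC, Or.inl rfl⟩, hyu, hsv⟩ hcon
      · exact hs
    obtain ⟨e, he, he1, he2⟩ := hC (u ∪ {a | R a y}) (v ∩ {a | R y a}) (hu.union (h.openL y))
      (hv.inter (h.openR y)) (by
        intro c hc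
        by_cases hcy : c = y
        · left; left; rw [hcy]; exact hyu
        rcases h.total c y hcy with h1 | h1
        · left; right; exact h1
        · rcases hsub ⟨hc, Or.inr h1⟩ with h2 | h2
          · left; left; exact h2
          · right; exact ⟨h2, h1⟩) ⟨y, hy, Or.inl hyu⟩ ⟨s, hsC, hsv, hs'⟩
    rcases he1 with h1 | h1
    · exact hcon ⟨e, ⟨he, Or.inr he2.2⟩, h1, he2.1⟩
    · exact h.asymm _ _ h1 he2.2
  intro u v hu hv hsub hnu hnv
  rcases hsub ⟨hy, Or.inl rfl⟩ with h1 | h1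
  · exact main u v hu hv hsub hnv h1
  · have := main v u hv hu (by rwa [union_comm]) hnu h1
    rwa [inter_comm u v]

theorem IsT.trans {R : X → X → Prop} (h : IsT R) {C : Set X} (hC : IsPreconnected C) {x y z : X}
    (hx : x ∈ C) (hy : y ∈ C) (hz : z ∈ C) (hxy : R x y) (hyz : R y z) : R x z := by
  have h1 := h.cut hC hy
  have hx' : x ∉ {c | c ∈ C ∧ (c = y ∨ R y c)} := by
    rintro ⟨-, h2 | h2⟩
    · exact h.ne hxy h2
    · exact h.asymm _ _ hxy h2
  rcases h.const h1 hx' with h2 | h2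
  · exact absurd (h2 y ⟨hy, Or.inl rfl⟩) (h.asymm _ _ hxy)
  · exact h2 z ⟨hz, Or.inr hyz⟩

open Classical in
/-- closed connected sets have a bottom point -/
theorem Kings.bottom (hX : Kings X) {R : X → X → Prop} (h : IsT R) {C : Set X}
    (hC : IsPreconnected C) (hcl : IsClosed C) (hne : C.Nonempty) :
    ∃ m ∈ C, ∀ c ∈ C, c = m ∨ R c m := by
  by_contra hcon
  push Not at hcon
  have hcon' : ∀ m ∈ C, ∃ c ∈ C, R m c := by
    intro m hm
    obtain ⟨c, hc, hcm, hc2⟩ := hcon m hm
    exact ⟨c, hc, (h.total m c (Ne.symm hcm)).resolve_right hc2⟩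
  obtain ⟨x0, hx0⟩ := hne
  set F : Set X := {v | v ∉ C ∧ ∀ c ∈ C, R c v} with hF
  have hFeq : F = Cᶜ ∩ {v | R x0 v} := by
    ext v
    constructor
    · rintro ⟨h1, h2⟩; exact ⟨h1, h2 _ hx0⟩
    · rintro ⟨h1, h2⟩
      refine ⟨h1, ?_⟩
      rcases h.const hC h1 with h3 | h3
      · exact h3
      · exact absurd (h3 x0 hx0) (h.asymm _ _ h2)
  have hFo : IsOpen F := by
    rw [hFeq]; exact hcl.isOpen_compl.inter (h.openR x0)
  have hFc : IsClosed F := by
    rw [← isOpen_compl_iff, isOpen_iff_mem_nhds]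
    intro v hv
    by_cases hvC : v ∈ C
    · obtain ⟨b, hb, hvb⟩ := hcon' v hvC
      refine mem_of_superset ((h.openL b).mem_nhds hvb) ?_
      intro w hw hwF
      exact h.asymm _ _ hw (hwF.2 b hb)
    · have h1 : R v x0 := by
        rcases h.total v x0 (by rintro rfl; exact hvC hx0) with h2 | h2
        · exact h2
        · exact absurd (by rw [hFeq]; exact ⟨hvC, h2⟩) hv
      refine mem_of_superset ((h.openL x0).mem_nhds h1) ?_
      intro w hw hwF
      exact h.asymm _ _ hw (hwF.2 x0 hx0)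
  have hFcl0 : IsClopen F := ⟨hFc, hFo⟩
  have hFcl : IsClopen Fᶜ := hFcl0.compl
  obtain ⟨z, hz, hk⟩ := hX.clopen h hFcl ⟨x0, fun h1 => h1.1 hx0⟩
  have key : ∀ x ∈ C, z ∈ C ∧ (x = z ∨ R x z) := by
    intro x hx
    obtain ⟨y, hy, h1, h2⟩ := hk x (fun h1 => h1.1 hx)
    have hyC : y ∈ C := by
      rcases h2 with rfl | h2
      · exact hx
      · by_contra hyC
        rcases h.const hC hyC with h3 | h3
        · exact hy ⟨hyC, h3⟩
        · exact h.asymm _ _ h2 (h3 x hx)
    have hzC : z ∈ C := by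
      rcases h1 with rfl | h1
      · exact hyC
      · by_contra hzC
        rcases h.const hC hzC with h3 | h3
        · exact hz ⟨hzC, h3⟩
        · exact h.asymm _ _ h1 (h3 y hyC)
    refine ⟨hzC, ?_⟩
    rcases h1 with rfl | h1
    · exact h2
    · rcases h2 with rfl | h2
      · exact Or.inr h1
      · exact Or.inr (h.trans hC hx hyC hzC h2 h1)
  have hzC := (key x0 hx0).1
  obtain ⟨b, hb, hb2⟩ := hcon' z hzC
  rcases (key b hb).2 with h1 | h1
  · exact h.ne hb2 h1.symm
  · exact h.asymm _ _ h1 hb2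

end X198KS
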