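import Pool.Agent.X198.KS.Comp

open Set Filter Topology

namespace X198KS

variable {X : Type*} [TopologicalSpace X]

theorem exists_fun [T35Space X] {C V : Set X} (hC : IsCompact C) (hV : IsOpen V) (hCV : C ⊆ V) :
    ∃ f : X → ℝ, Continuous f ∧ (∀ x ∈ C, 1/2 < f x) ∧ (∀ x, x ∉ V → f x = 0) := by
  refine hC.induction_on (p := fun s => ∃ f : X → ℝ, Continuous f ∧ (∀ x ∈ s, 1/2 < f x) ∧
    (∀ x, x ∉ V → f x = 0)) ?_ ?_ ?_ ?_
  · exact ⟨fun _ => 0, continuous_const, fun x hx => absurd hx (by simp), fun _ _ => rfl⟩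
  · rintro s t hst ⟨f, h1, h2, h3⟩
    exact ⟨f, h1, fun x hx => h2 x (hst hx), h3⟩
  · rintro s t ⟨f, h1, h2, h3⟩ ⟨g, g1, g2, g3⟩
    refine ⟨fun x => max (f x) (g x), h1.max g1, ?_, fun x hx => by
      simp only [h3 x hx, g3 x hx, max_self]⟩
    rintro x (hx | hx)
    · exact lt_max_of_lt_left (h2 x hx)
    · exact lt_max_of_lt_right (g2 x hx)
  · intro x hx
    obtain ⟨f, hf1, hf2, hf3⟩ := CompletelyRegularSpace.completely_regular x Vᶜ
      hV.isClosed_compl (fun h1 => h1 (hCV hx))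
    have hfc : Continuous fun x => 1 - (f x : ℝ) :=
      continuous_const.sub (continuous_subtype_val.comp hf1)
    refine ⟨{y | 1/2 < 1 - (f y : ℝ)}, mem_nhdsWithin_of_mem_nhds
      ((isOpen_lt continuous_const hfc).mem_nhds ?_), fun x => 1 - (f x : ℝ), hfc,
      fun y hy => hy, fun y hy => ?_⟩
    · simp only [Set.mem_ofPred_eq, hf2]; norm_num
    · have := hf3 hy
      simp only [Pi.one_apply] at this
      simp [this]

theorem FC.empty : FC (∅ : Set X) := by
  intro W _ h2 h3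
  obtain ⟨x, hx⟩ := h2 0
  exact absurd (h3 0 hx) (by simp)

theorem LFC.exists_nhd (hl : LFC X) {C : Set X} (hC : IsCompact C) :
    ∃ V : Set X, IsOpen V ∧ C ⊆ V ∧ FC V := by
  refine hC.induction_on (p := fun s => ∃ V : Set X, IsOpen V ∧ s ⊆ V ∧ FC V) ?_ ?_ ?_ ?_
  · exact ⟨∅, isOpen_empty, Subset.rfl, FC.empty⟩
  · rintro s t hst ⟨V, h1, h2, h3⟩
    exact ⟨V, h1, hst.trans h2, h3⟩
  · rintro s t ⟨V, h1, h2, h3⟩ ⟨V', h1', h2', h3'⟩
    exact ⟨V ∪ V', h1.union h1', union_subset_union h2 h2', h3.union h3' h1⟩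
  · intro x _
    obtain ⟨V, h1, h2, h3⟩ := hl x
    exact ⟨V, mem_nhdsWithin_of_mem_nhds (h1.mem_nhds h2), V, h1, Subset.rfl, h3⟩

theorem IsT.side {R : X → X → Prop} (h : IsT R) {C : Set X} (hC : IsPreconnected C)
    (hCc : IsCompact C) (hCcl : IsClosed C) {c0 : X} (hc0 : c0 ∈ C)
    (hsep : ∀ y, y ∉ C → ∃ H : Set X, IsClopen H ∧ C ⊆ H ∧ y ∉ H) {V : Set X} (hVF : FC V)
    {f : X → ℝ} (hf : Continuous f) (hfC : ∀ x ∈ C, 1/2 < f x) (hfV : ∀ x, x ∉ V → f x = 0) :
    ∃ K N : Set X, IsOpen K ∧ IsOpen N ∧ C ⊆ N ∧ IsClosed (K ∪ C) ∧ K ⊆ V ∧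
      ∀ v ∈ N, v ∉ C → (∀ c ∈ C, R v c) → v ∈ K := by
  set E : Set X := {v | v ∉ C ∧ ∀ c ∈ C, R v c} with hE
  have hEeq : E = Cᶜ ∩ {v | R v c0} := by
    ext v
    constructor
    · rintro ⟨h1, h2⟩; exact ⟨h1, h2 _ hc0⟩
    · rintro ⟨h1, h2⟩
      refine ⟨h1, ?_⟩
      rcases h.const hC h1 with h3 | h3
      · exact absurd (h3 c0 hc0) (h.asymm _ _ h2)
      · exact h3
  have hEo : IsOpen E := by
    rw [hEeq]; exact hCcl.isOpen_compl.inter (h.openL c0)
  have hECcl : IsClosed (E ∪ C) := by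
    have : (E ∪ C)ᶜ = Cᶜ ∩ {v | R c0 v} := by
      ext v
      constructor
      · intro hv
        have h1 : v ∉ C := fun h1 => hv (Or.inr h1)
        refine ⟨h1, ?_⟩
        rcases h.const hC h1 with h3 | h3
        · exact h3 c0 hc0
        · exact absurd (Or.inl ⟨h1, h3⟩) hv
      · rintro ⟨h1, h2⟩ (h3 | h3)
        · exact h.asymm _ _ h2 (h3.2 c0 hc0)
        · exact h1 h3
    rw [← isOpen_compl_iff, this]
    exact hCcl.isOpen_compl.inter (h.openR c0)
  have hclaim : ∃ N0 : Set X, IsOpen N0 ∧ C ⊆ N0 ∧ ∀ y ∈ N0, y ∈ E → ∀ z ∈ E, 1/8 < f z →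
      f z < 3/8 → ¬ R y z := by
    by_contra hcon
    push Not at hcon
    have step : ∀ s : {s : Set X × Set X × Set X // IsOpen s.1 ∧ C ⊆ s.1},
        ∃ s' : {s : Set X × Set X × Set X // IsOpen s.1 ∧ C ⊆ s.1},
          s'.1.1 ⊆ s.1.1 ∧ (IsOpen s'.1.2.1 ∧ s'.1.2.1.Nonempty ∧ s'.1.2.1 ⊆ s.1.1 ∧
            s'.1.2.1 ⊆ {x | 1/2 < f x}) ∧
          (IsOpen s'.1.2.2 ∧ s'.1.2.2.Nonempty ∧ s'.1.2.2 ⊆ {x | 1/8 < f x ∧ f x < 3/8}) ∧
          (∀ a ∈ s'.1.2.1, ∀ b ∈ s'.1.2.2, R a b) ∧ (∀ b ∈ s'.1.2.2, ∀ a ∈ s'.1.1, R b a) := by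
      rintro ⟨⟨N, Y, Z⟩, hN, hCN⟩
      have hfo : IsOpen {x | 1/2 < f x} := isOpen_lt continuous_const hf
      obtain ⟨y, hy, hyE, z, hzE, hz1, hz2, hyz⟩ := hcon (N ∩ {x | 1/2 < f x}) (hN.inter hfo)
        (fun c hc => ⟨hCN hc, hfC c hc⟩)
      obtain ⟨A, B, hA, hB, hzA, hCB, hAB⟩ := h.tube hCc hzE.2
      obtain ⟨A', B', hA', hB', hyA', hzB', hAB'⟩ := h.nhds hyz
      refine ⟨⟨⟨N ∩ B, A' ∩ (N ∩ {x | 1/2 < f x}), (A ∩ B') ∩ {x | 1/8 < f x ∧ f x < 3/8}⟩,
        hN.inter hB, fun c hc => ⟨hCN hc, hCB hc⟩⟩, inter_subset_left,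
        ⟨hA'.inter (hN.inter hfo), ⟨y, hyA', hy⟩, fun a ha => ha.2.1, fun a ha => ha.2.2⟩,
        ⟨(hA.inter hB').inter ((isOpen_lt continuous_const hf).inter
          (isOpen_lt hf continuous_const)), ⟨z, ⟨hzA, hzB'⟩, hz1, hz2⟩, fun a ha => ha.2⟩,
        fun a ha b hb => hAB' a ha.1 b hb.1.2, fun b hb a ha => hAB b hb.1.1 a ha.2⟩
    choose g hg using step
    set F : ℕ → {s : Set X × Set X × Set X // IsOpen s.1 ∧ C ⊆ s.1} :=
      fun n => g^[n] ⟨⟨univ, ∅, ∅⟩, isOpen_univ, subset_univ _⟩ with hF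
    have hF1 : ∀ n, F (n + 1) = g (F n) := fun n => by
      simp only [hF, Function.iterate_succ_apply']
    have hanti : ∀ i j, i ≤ j → (F j).1.1 ⊆ (F i).1.1 := by
      intro i j hij
      induction hij with
      | refl => exact Subset.rfl
      | step _ ih =>
        rw [Nat.succ_eq_add_one, hF1]
        exact (hg _).1.trans ih
    have hWV : ∀ n, (F (n+1)).1.2.2 ⊆ V := by
      intro n x hx
      rw [hF1] at hx
      by_contra hxV
      have h1 := ((hg (F n)).2.2.1.2.2 hx).1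
      rw [hfV x hxV] at h1; norm_num at h1
    refine h.pattern (A := {x | 1/2 ≤ f x}) (B := {x | f x ≤ 3/8})
      (isClosed_le continuous_const hf) (isClosed_le hf continuous_const)
      (fun x hx1 hx2 => by
        simp only [Set.mem_ofPred_eq] at hx1 hx2
        linarith) hVF
      (fun n => (F (n+1)).1.2.1) (fun n => (F (n+1)).1.2.2) ?_ ?_ ?_ ?_ ?_ ?_ ?_
    · intro n; simp only [hF1]; exact (hg _).2.1.1
    · intro n; simp only [hF1]; exact (hg _).2.1.2.1
    · intro n x hx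
      simp only [hF1] at hx
      by_contra hxV
      have h1 := (hg (F n)).2.1.2.2.2 hx
      simp only [Set.mem_ofPred_eq] at h1
      rw [hfV x hxV] at h1; norm_num at h1
    · intro n x hx
      simp only [hF1] at hx
      have h1 := (hg (F n)).2.1.2.2.2 hx
      simp only [Set.mem_ofPred_eq] at h1 ⊢
      exact h1.le
    · intro n x hx
      simp only [hF1] at hx
      have h1 := ((hg (F n)).2.2.1.2.2 hx).2
      simp only [Set.mem_ofPred_eq] at h1 ⊢
      exact h1.le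
    · intro k hk
      refine hVF _ (fun j => ?_) (fun j => ?_) (fun j => hWV _)
      · rw [hF1]; exact (hg _).2.2.1.1
      · rw [hF1]; exact (hg _).2.2.1.2.1
    · intro n
      left
      constructor
      · intro a ha b hb
        simp only [hF1] at ha hb
        exact (hg (F n)).2.2.2.1 a ha b hb
      · intro m hnm a ha b hb
        simp only [hF1] at ha hb
        refine (hg (F n)).2.2.2.2 b hb a ?_
        rw [← hF1]
        exact hanti (n+1) m hnm ((hg (F m)).2.1.2.2.1 ha)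
  obtain ⟨N0, hN0, hCN0, hN0'⟩ := hclaim
  by_cases hy : ∃ y ∈ N0, y ∈ E
  · obtain ⟨y, hyN, hyE⟩ := hy
    obtain ⟨H, hH, hCH, hyH⟩ := hsep y hyE.1
    refine ⟨E ∩ ({z | R y z} ∩ ({z | 1/8 < f z} ∩ H)), {z | R y z} ∩ ({z | 1/8 < f z} ∩ H),
      hEo.inter ((h.openR y).inter ((isOpen_lt continuous_const hf).inter hH.isOpen)),
      (h.openR y).inter ((isOpen_lt continuous_const hf).inter hH.isOpen), ?_, ?_, ?_, ?_⟩
    · intro c hc
      refine ⟨hyE.2 c hc, ?_, hCH hc⟩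
      have := hfC c hc
      simp only [Set.mem_ofPred_eq]; linarith
    · refine isClosed_of_closure_subset ?_
      rw [closure_union, hCcl.closure_eq]
      rintro v (hv | hv)
      · by_cases hvC : v ∈ C
        · exact Or.inr hvC
        left
        have h1 : v ∈ E ∪ C := closure_minimal (fun z hz => Or.inl hz.1) hECcl hv
        have h2 : v ∈ H := closure_minimal (fun z hz => hz.2.2.2) hH.isClosed hv
        have h3 : v ∈ {z | 3/8 ≤ f z} := by
          refine closure_minimal (fun z hz => ?_) (isClosed_le continuous_const hf) hv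
          by_contra hc
          exact hN0' y hyN hyE z hz.1 hz.2.2.1 (not_le.1 hc) hz.2.1
        have h4 : v ∈ {z | R z y}ᶜ :=
          closure_minimal (fun z hz => h.asymm _ _ hz.2.1) (h.openL y).isClosed_compl hv
        have hvy : v ≠ y := by rintro rfl; exact hyH h2
        refine ⟨h1.resolve_right hvC, (h.total v y hvy).resolve_left h4, ?_, h2⟩
        simp only [Set.mem_ofPred_eq] at h3 ⊢
        linarith
      · exact Or.inr hv
    · intro z hz
      by_contra hzV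
      have h1 := hz.2.2.1
      simp only [Set.mem_ofPred_eq] at h1
      rw [hfV z hzV] at h1; norm_num at h1
    · intro v hv hvC hvR
      exact ⟨⟨hvC, hvR⟩, hv⟩
  · refine ⟨∅, N0, isOpen_empty, hN0, hCN0, by rw [empty_union]; exact hCcl, empty_subset _, ?_⟩
    intro v hv hvC hvR
    exact absurd ⟨v, hv, hvC, hvR⟩ hy

theorem Kings.clopen_base [T35Space X] (hX : Kings X) {R : X → X → Prop} (h : IsT R) (hl : LFC X)
    (x : X) {U : Set X} (hU : IsOpen U) (hCU : connectedComponent x ⊆ U) :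
    ∃ D : Set X, IsClopen D ∧ connectedComponent x ⊆ D ∧ D ⊆ U ∧ FC D := by
  have hCc := hX.comp_compact h hl x
  obtain ⟨V0, hV0, hCV0, hV0F⟩ := hl.exists_nhd hCc
  have hVF : FC (V0 ∩ U) := hV0F.mono inter_subset_left
  obtain ⟨f, hf, hfC, hfV⟩ := exists_fun hCc (hV0.inter hU) (subset_inter hCV0 hCU)
  obtain ⟨K1, N1, hK1, hN1, hCN1, hcl1, hK1V, h1⟩ := h.side isPreconnected_connectedComponent hCc
    isClosed_connectedComponent (mem_connectedComponent (x := x)) (fun y hy => h.sep hy) hVF hf hfC hfV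
  obtain ⟨K2, N2, hK2, hN2, hCN2, hcl2, hK2V, h2⟩ := h.flip.side isPreconnected_connectedComponent hCc
    isClosed_connectedComponent (mem_connectedComponent (x := x)) (fun y hy => h.sep hy) hVF hf hfC hfV
  have hDU : (K1 ∪ connectedComponent x) ∪ (K2 ∪ connectedComponent x) ⊆ V0 ∩ U :=
    union_subset (union_subset hK1V (subset_inter hCV0 hCU)) (union_subset hK2V (subset_inter hCV0 hCU))
  refine ⟨(K1 ∪ connectedComponent x) ∪ (K2 ∪ connectedComponent x), ⟨hcl1.union hcl2, ?_⟩,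
    fun v hv => Or.inl (Or.inr hv), hDU.trans inter_subset_right, hVF.mono hDU⟩
  have : (K1 ∪ connectedComponent x) ∪ (K2 ∪ connectedComponent x) = (K1 ∪ K2) ∪ (N1 ∩ N2) := by
    apply Subset.antisymm
    · rintro v ((hv | hv) | (hv | hv))
      · exact Or.inl (Or.inl hv)
      · exact Or.inr ⟨hCN1 hv, hCN2 hv⟩
      · exact Or.inl (Or.inr hv)
      · exact Or.inr ⟨hCN1 hv, hCN2 hv⟩
    · rintro v ((hv | hv) | ⟨hv1, hv2⟩)
      · exact Or.inl (Or.inl hv)
      · exact Or.inr (Or.inl hv)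
      · by_cases hvC : v ∈ connectedComponent x
        · exact Or.inl (Or.inr hvC)
        · rcases h.const isPreconnected_connectedComponent hvC with h3 | h3
          · exact Or.inr (Or.inl (h2 v hv2 hvC h3))
          · exact Or.inl (Or.inl (h1 v hv1 hvC h3))
  rw [this]
  exact (hK1.union hK2).union (hN1.inter hN2)

end X198KS
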