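import Pool.Agent.X198.KS.Basic

open Set Filter Topology

namespace X198KS

variable {X : Type*} [TopologicalSpace X]

/-- the quasi-component of `x` -/
def quasi (x : X) : Set X := {y | ∀ D : Set X, IsClopen D → x ∈ D → y ∈ D}

theorem mem_quasi (x : X) : x ∈ quasi x := fun _ _ h => h

theorem quasi_closed (x : X) : IsClosed (quasi x) := by
  have : quasi x = ⋂ D : {D : Set X // IsClopen D ∧ x ∈ D}, D.1 := by
    ext y
    simp only [quasi, mem_setOf_eq, mem_iInter, Subtype.forall, and_imp]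
  rw [this]
  exact isClosed_iInter fun D => D.2.1.isClosed

theorem IsT.quasi_const {R : X → X → Prop} (h : IsT R) {x z : X} (hz : z ∉ quasi x) :
    (∀ q ∈ quasi x, R q z) ∨ (∀ q ∈ quasi x, R z q) := by
  have : ∃ H : Set X, IsClopen H ∧ x ∈ H ∧ z ∉ H := by
    simp only [quasi, mem_setOf_eq] at hz
    push Not at hz
    exact hz
  obtain ⟨H, hH, hxH, hzH⟩ := this
  have hne : ∀ w ∈ H, w ≠ z := fun w hw => by rintro rfl; exact hzH hw
  have hA : IsClopen (H ∩ {w | R w z}) := by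
    refine ⟨?_, hH.isOpen.inter (h.openL z)⟩
    rw [← isOpen_compl_iff]
    have : (H ∩ {w | R w z})ᶜ = Hᶜ ∪ (H ∩ {w | R z w}) := by
      ext w
      by_cases hw : w ∈ H
      · have h1 := h.total w z (hne w hw)
        have h2 := h.asymm w z
        simp only [mem_compl_iff, mem_inter_iff, mem_setOf_eq, mem_union, hw, true_and, not_true,
          false_or]
        tauto
      · simp [hw]
    rw [this]
    exact hH.compl.isOpen.union (hH.isOpen.inter (h.openR z))
  by_cases hx : R x z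
  · left
    intro q hq
    exact (hq _ hA ⟨hxH, hx⟩).2
  · right
    intro q hq
    have h1 : q ∈ (H ∩ {w | R w z})ᶜ := hq _ hA.compl (fun h2 => hx h2.2)
    have h2 : q ∈ H := hq _ hH hxH
    exact (h.total q z (hne q h2)).resolve_left (fun h3 => h1 ⟨h2, h3⟩)

/-- quasi-components are connected -/
theorem IsT.quasi_conn {R : X → X → Prop} (h : IsT R) (x : X) : IsPreconnected (quasi x) := by
  classical
  intro u v hu hv hsub hnu hnv
  by_contra hcon
  -- the general lemma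
  set E : Set X := {w | w ∉ quasi x ∧ ∀ q ∈ quasi x, R w q} with hE
  set F : Set X := {w | w ∉ quasi x ∧ ∀ q ∈ quasi x, R q w} with hF
  have hEo : IsOpen E := by
    have : E = (quasi x)ᶜ ∩ {w | R w x} := by
      ext w
      constructor
      · rintro ⟨h1, h2⟩; exact ⟨h1, h2 x (mem_quasi x)⟩
      · rintro ⟨h1, h2⟩
        refine ⟨h1, ?_⟩
        rcases h.quasi_const h1 with h3 | h3
        · exact absurd (h3 x (mem_quasi x)) (h.asymm _ _ h2)
        · exact h3
    rw [this]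
    exact (quasi_closed x).isOpen_compl.inter (h.openL x)
  have hFo : IsOpen F := by
    have : F = (quasi x)ᶜ ∩ {w | R x w} := by
      ext w
      constructor
      · rintro ⟨h1, h2⟩; exact ⟨h1, h2 x (mem_quasi x)⟩
      · rintro ⟨h1, h2⟩
        refine ⟨h1, ?_⟩
        rcases h.quasi_const h1 with h3 | h3
        · exact h3
        · exact absurd (h3 x (mem_quasi x)) (h.asymm _ _ h2)
    rw [this]
    exact (quasi_closed x).isOpen_compl.inter (h.openR x)
  have hcases : ∀ w, w ∈ quasi x ∨ w ∈ E ∨ w ∈ F := by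
    intro w
    by_cases hw : w ∈ quasi x
    · exact Or.inl hw
    · rcases h.quasi_const hw with h3 | h3
      · exact Or.inr (Or.inr ⟨hw, h3⟩)
      · exact Or.inr (Or.inl ⟨hw, h3⟩)
  have N1 : ∀ w0 ∈ quasi x, ∀ a ∈ quasi x, R a w0 → ∀ᶠ w in 𝓝 w0, w ∉ E := by
    intro w0 _ a ha haw
    filter_upwards [(h.openR a).mem_nhds haw] with w hw hwE
    exact h.asymm _ _ hw (hwE.2 a ha)
  have N2 : ∀ w0 ∈ quasi x, ∀ a ∈ quasi x, R w0 a → ∀ᶠ w in 𝓝 w0, w ∉ F := by
    intro w0 _ a ha haw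
    filter_upwards [(h.openL a).mem_nhds haw] with w hw hwE
    exact h.asymm _ _ hw (hwE.2 a ha)
  have hdis : ∀ w ∈ quasi x, w ∈ u → w ∈ v → False := fun w h1 h2 h3 => hcon ⟨w, h1, h2, h3⟩
  set TP : Prop := ∃ t ∈ quasi x, t ∈ u ∧ ∀ q ∈ quasi x, q ≠ t → R t q with hTP
  set BP : Prop := ∃ t ∈ quasi x, t ∈ u ∧ ∀ q ∈ quasi x, q ≠ t → R q t with hBP
  set D : Set X := (quasi x ∩ u) ∪ ({w | w ∈ E ∧ TP} ∪ {w | w ∈ F ∧ BP}) with hD
  have hEF : ∀ w, w ∈ E → w ∉ F := fun w h1 h2 =>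
    h.asymm _ _ (h1.2 x (mem_quasi x)) (h2.2 x (mem_quasi x))
  have hDo : IsOpen D := by
    rw [isOpen_iff_mem_nhds]
    rintro w0 (⟨hq, hwu⟩ | ⟨hwE, hT⟩ | ⟨hwF, hB⟩)
    · have e1 : ∀ᶠ w in 𝓝 w0, w ∈ u := hu.mem_nhds hwu
      have e2 : ∀ᶠ w in 𝓝 w0, w ∈ E → TP := by
        by_cases hT : TP
        · exact Eventually.of_forall fun _ _ => hT
        · have : ¬ ∀ q ∈ quasi x, q ≠ w0 → R w0 q := fun h1 => hT ⟨w0, hq, hwu, h1⟩
          push Not at this
          obtain ⟨a, ha, hne, ha2⟩ := this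
          filter_upwards [N1 w0 hq a ha ((h.total a w0 hne).resolve_right ha2)] with w hw hwE
          exact absurd hwE hw
      have e3 : ∀ᶠ w in 𝓝 w0, w ∈ F → BP := by
        by_cases hT : BP
        · exact Eventually.of_forall fun _ _ => hT
        · have : ¬ ∀ q ∈ quasi x, q ≠ w0 → R q w0 := fun h1 => hT ⟨w0, hq, hwu, h1⟩
          push Not at this
          obtain ⟨a, ha, hne, ha2⟩ := this
          filter_upwards [N2 w0 hq a ha ((h.total w0 a (Ne.symm hne)).resolve_right ha2)] with w hw hwE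
          exact absurd hwE hw
      filter_upwards [e1, e2, e3] with w h1 h2 h3
      rcases hcases w with h4 | h4 | h4
      · exact Or.inl ⟨h4, h1⟩
      · exact Or.inr (Or.inl ⟨h4, h2 h4⟩)
      · exact Or.inr (Or.inr ⟨h4, h3 h4⟩)
    · filter_upwards [hEo.mem_nhds hwE] with w hw
      exact Or.inr (Or.inl ⟨hw, hT⟩)
    · filter_upwards [hFo.mem_nhds hwF] with w hw
      exact Or.inr (Or.inr ⟨hw, hB⟩)
  have hDc : IsOpen Dᶜ := by
    rw [isOpen_iff_mem_nhds]
    intro w0 hw0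
    rcases hcases w0 with hq | hwE | hwF
    · have hwv : w0 ∈ v := by
        rcases hsub hq with h1 | h1
        · exact absurd (Or.inl ⟨hq, h1⟩) hw0
        · exact h1
      have e1 : ∀ᶠ w in 𝓝 w0, w ∈ v := hv.mem_nhds hwv
      have e2 : ∀ᶠ w in 𝓝 w0, w ∈ E → ¬ TP := by
        by_cases hT : TP
        · have hT' := hT
          obtain ⟨t, ht, htu, ht2⟩ := hT
          have hne : w0 ≠ t := by rintro rfl; exact hdis _ ht htu hwv
          filter_upwards [N1 w0 hq t ht (ht2 w0 hq hne)] with w hw hwE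
          exact absurd hwE hw
        · exact Eventually.of_forall fun _ _ => hT
      have e3 : ∀ᶠ w in 𝓝 w0, w ∈ F → ¬ BP := by
        by_cases hT : BP
        · have hT' := hT
          obtain ⟨t, ht, htu, ht2⟩ := hT
          have hne : w0 ≠ t := by rintro rfl; exact hdis _ ht htu hwv
          filter_upwards [N2 w0 hq t ht (ht2 w0 hq hne)] with w hw hwE
          exact absurd hwE hw
        · exact Eventually.of_forall fun _ _ => hT
      filter_upwards [e1, e2, e3] with w h1 h2 h3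
      rintro (⟨h4, h5⟩ | ⟨h4, h5⟩ | ⟨h4, h5⟩)
      · exact hdis _ h4 h5 h1
      · exact h2 h4 h5
      · exact h3 h4 h5
    · have hT : ¬ TP := fun h1 => hw0 (Or.inr (Or.inl ⟨hwE, h1⟩))
      filter_upwards [hEo.mem_nhds hwE] with w hw
      rintro (⟨h4, h5⟩ | ⟨h4, h5⟩ | ⟨h4, h5⟩)
      · exact hw.1 h4
      · exact hT h5
      · exact hEF _ hw h4
    · have hT : ¬ BP := fun h1 => hw0 (Or.inr (Or.inr ⟨hwF, h1⟩))
      filter_upwards [hFo.mem_nhds hwF] with w hw
      rintro (⟨h4, h5⟩ | ⟨h4, h5⟩ | ⟨h4, h5⟩)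
      · exact hw.1 h4
      · exact hEF _ h4 hw
      · exact hT h5
  have hDcl : IsClopen D := ⟨⟨hDc⟩, hDo⟩
  obtain ⟨p, hp, hpu⟩ := hnu
  obtain ⟨r, hr, hrv⟩ := hnv
  have hpD : p ∈ D := Or.inl ⟨hp, hpu⟩
  have hrD : r ∉ D := by
    rintro (⟨h4, h5⟩ | ⟨h4, h5⟩ | ⟨h4, h5⟩)
    · exact hdis _ h4 h5 hrv
    · exact h4.1 hr
    · exact h4.1 hr
  by_cases hx : x ∈ D
  · exact hrD (hr D hDcl hx)
  · exact (hp Dᶜ hDcl.compl hx) hpD

/-- points outside of the component can be separated by clopen sets -/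
theorem IsT.sep {R : X → X → Prop} (h : IsT R) {x y : X} (hy : y ∉ connectedComponent x) :
    ∃ H : Set X, IsClopen H ∧ connectedComponent x ⊆ H ∧ y ∉ H := by
  have h1 : y ∉ quasi x := fun h2 =>
    hy ((h.quasi_conn x).subset_connectedComponent (mem_quasi x) h2)
  simp only [quasi, mem_setOf_eq] at h1
  push Not at h1
  obtain ⟨H, hH, hxH, hyH⟩ := h1
  exact ⟨H, hH, hH.connectedComponent_subset hxH, hyH⟩

end X198KS
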