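import Pool.Agent.X198.KS.FC
import Pool.Agent.X198.KS.Quasi

open Set Filter Topology

namespace X198KS

variable {X : Type*} [TopologicalSpace X]

/-- every point has a feebly compact open neighbourhood -/
def LFC (X : Type*) [TopologicalSpace X] : Prop := ∀ x : X, ∃ U : Set X, IsOpen U ∧ x ∈ U ∧ FC U

theorem IsT.clus_contra {R : X → X → Prop} (h : IsT R) {S T : ℕ → Set X} {s t : X} (hst : R s t)
    (hs : Clus S s) (ht : Clus T t) (hTS : ∀ i j, i < j → ∀ a ∈ T i, ∀ b ∈ S j, R a b) : False := by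
  obtain ⟨A, B, hA, hB, hsA, htB, hAB⟩ := h.nhds hst
  obtain ⟨i, b, hb, hbW⟩ := (ht B (hB.mem_nhds htB)).exists
  obtain ⟨j, hij, a, ha, haW⟩ := (frequently_atTop'.1 (hs A (hA.mem_nhds hsA))) i
  exact h.asymm _ _ (hAB a ha b hb) (hTS i j hij b hbW a haW)

theorem clus_closed {W : ℕ → Set X} {q : X} (hq : Clus W q) {A : Set X} (hA : IsClosed A)
    (hW : ∀ n, W n ⊆ A) : q ∈ A := by
  by_contra hqA
  obtain ⟨n, x, hx, hx2⟩ := (hq Aᶜ (hA.isOpen_compl.mem_nhds hqA)).exists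
  exact hx (hW _ hx2)

theorem IsT.between {R : X → X → Prop} (h : IsT R) {C : Set X} (hC : IsPreconnected C) {a b v : X}
    (ha : a ∈ C) (hb : b ∈ C) (h1 : R a v) (h2 : R v b) : v ∈ C := by
  by_contra hv
  rcases h.const hC hv with h3 | h3
  · exact h.asymm _ _ h2 (h3 b hb)
  · exact h.asymm _ _ h1 (h3 a ha)

theorem IsT.local_claim [T35Space X] {R : X → X → Prop} (h : IsT R) (hl : LFC X) {C : Set X}
    (hC : IsPreconnected C) {c : X} (hc : c ∈ C) {U : Set X} (hU : IsOpen U) (hcU : c ∈ U)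
    (htop : ∃ a ∈ C, R a c) :
    ∃ c' ∈ C, R c' c ∧ ∀ x ∈ C, (x = c ∨ R x c) → (x = c' ∨ R c' x) → x ∈ U := by
  by_contra hcon
  push Not at hcon
  obtain ⟨V, hV, hcV, hVF⟩ := hl c
  obtain ⟨f, hf1, hf2, hf3⟩ := CompletelyRegularSpace.completely_regular c (U ∩ V)ᶜ
    (hU.inter hV).isClosed_compl (fun h1 => h1 ⟨hcU, hcV⟩)
  have hfc : Continuous fun x => (f x : ℝ) := continuous_subtype_val.comp hf1
  have hf0 : (f c : ℝ) = 0 := by rw [hf2]; rfl
  have hfout : ∀ x, x ∉ U ∩ V → (f x : ℝ) = 1 := fun x hx => by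
    have := hf3 hx
    rw [this]; rfl
  have key1 : ∀ t : ℝ, 0 < t → t < 1 → ∀ c' ∈ C, R c' c → ∃ v ∈ C, R v c ∧ R c' v ∧ (f v : ℝ) = t := by
    intro t ht0 ht1 c' hc' hcc
    obtain ⟨x, hx, hx1, hx2, hxU⟩ := hcon c' hc' hcc
    have hfx : (f x : ℝ) = 1 := hfout x (fun h1 => hxU h1.1)
    have hxc : R x c := by
      rcases hx1 with rfl | h1
      · rw [hf0] at hfx; norm_num at hfx
      · exact h1
    have hC1 : IsPreconnected {v | v ∈ C ∧ (v = c ∨ R v c)} := h.flip.cut hC hc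
    have hC2 := h.cut hC1 (y := x) ⟨hx, Or.inr hxc⟩
    obtain ⟨v, ⟨⟨hv1, hv2⟩, hv3⟩, hvt⟩ := hC2.intermediate_value (a := c) (b := x)
      ⟨⟨hc, Or.inl rfl⟩, Or.inr hxc⟩ ⟨⟨hx, Or.inr hxc⟩, Or.inl rfl⟩ hfc.continuousOn
      (show t ∈ Icc (f c : ℝ) (f x : ℝ) by rw [hf0, hfx]; exact ⟨ht0.le, ht1.le⟩)
    simp only at hvt
    have hvc : R v c := by
      rcases hv2 with rfl | h1
      · rw [hf0] at hvt; linarith
      · exact h1
    have hxv : R x v := by
      rcases hv3 with rfl | h1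
      · rw [hfx] at hvt; linarith
      · exact h1
    refine ⟨v, hv1, hvc, ?_, hvt⟩
    rcases hx2 with rfl | h1
    · exact hxv
    · exact h.trans hC hc' hx hv1 h1 hxv
  obtain ⟨a0, ha0, ha0c⟩ := htop
  have step : ∀ b : {b : X // b ∈ C ∧ R b c}, ∃ b' : {b : X // b ∈ C ∧ R b c},
      (∃ x, R b.1 x ∧ R x b'.1 ∧ (f x : ℝ) = 1/16) ∧ (∃ y, R b.1 y ∧ R y b'.1 ∧ (f y : ℝ) = 1/2) := by
    rintro ⟨b, hb, hbc⟩
    obtain ⟨x, hx, hxc, hbx, hfx⟩ := key1 (1/16) (by norm_num) (by norm_num) b hb hbc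
    obtain ⟨y, hy, hyc, hxy, hfy⟩ := key1 (1/2) (by norm_num) (by norm_num) x hx hxc
    obtain ⟨b', hb', hb'c, hyb, -⟩ := key1 (1/2) (by norm_num) (by norm_num) y hy hyc
    exact ⟨⟨b', hb', hb'c⟩, ⟨x, hbx, h.trans hC hx hy hb' hxy hyb, hfx⟩,
      ⟨y, h.trans hC hb hx hy hbx hxy, hyb, hfy⟩⟩
  choose g hg using step
  set b : ℕ → {b : X // b ∈ C ∧ R b c} := fun n => g^[n] ⟨a0, ha0, ha0c⟩ with hb
  have hb1 : ∀ n, b (n + 1) = g (b n) := fun n => by simp only [hb, Function.iterate_succ_apply']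
  have hbstep : ∀ n, R (b n).1 (b (n + 1)).1 := by
    intro n
    rw [hb1]
    obtain ⟨x, h1, h2, h3⟩ := (hg (b n)).1
    exact h.trans hC (b n).2.1 (h.between hC (b n).2.1 (g (b n)).2.1 h1 h2) (g (b n)).2.1 h1 h2
  have hble : ∀ i j, i ≤ j → (b i).1 = (b j).1 ∨ R (b i).1 (b j).1 := by
    intro i j hij
    induction hij with
    | refl => exact Or.inl rfl
    | @step m _ ih =>
      right
      rcases ih with h1 | h1
      · rw [h1]; exact hbstep m
      · exact h.trans hC (b i).2.1 (b m).2.1 (b (m+1)).2.1 h1 (hbstep m)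
  have hrel : ∀ i j, i < j → ∀ v w, R (b i).1 v → R v (b (i+1)).1 → R (b j).1 w → R w (b (j+1)).1 →
      R v w := by
    intro i j hij v w h1 h2 h3 h4
    have hv : v ∈ C := h.between hC (b i).2.1 (b (i+1)).2.1 h1 h2
    have hw : w ∈ C := h.between hC (b j).2.1 (b (j+1)).2.1 h3 h4
    rcases hble (i+1) j hij with h5 | h5
    · rw [h5] at h2
      exact h.trans hC hv (b j).2.1 hw h2 h3
    · exact h.trans hC hv (b j).2.1 hw (h.trans hC hv (b (i+1)).2.1 (b j).2.1 h2 h5) h3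
  set P : ℕ → Set X := fun i => {v | R (b i).1 v ∧ R v (b (i+1)).1 ∧ (f v : ℝ) < 1/8} with hP
  set O : ℕ → Set X := fun i => {v | R (b i).1 v ∧ R v (b (i+1)).1 ∧ (3/8 < (f v : ℝ) ∧ (f v : ℝ) < 5/8)}
    with hO
  have hPo : ∀ i, IsOpen (P i) := fun i =>
    (h.openR _).inter ((h.openL _).inter (isOpen_lt hfc continuous_const))
  have hOo : ∀ i, IsOpen (O i) := fun i =>
    (h.openR _).inter ((h.openL _).inter ((isOpen_lt continuous_const hfc).inter
      (isOpen_lt hfc continuous_const)))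
  obtain ⟨p, hp⟩ := hVF P hPo (by
    intro i
    obtain ⟨x, h1, h2, h3⟩ := (hg (b i)).1
    refine ⟨x, h1, ?_, ?_⟩
    · rw [hb1]; exact h2
    · rw [h3]; norm_num) (by
    intro i x hx
    by_contra hxV
    have := hfout x (fun h1 => hxV h1.2)
    have h2 := hx.2.2
    rw [this] at h2; norm_num at h2)
  obtain ⟨o, ho⟩ := hVF O hOo (by
    intro i
    obtain ⟨x, h1, h2, h3⟩ := (hg (b i)).2
    refine ⟨x, h1, ?_, ?_⟩
    · rw [hb1]; exact h2
    · rw [h3]; norm_num) (by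
    intro i x hx
    by_contra hxV
    have := hfout x (fun h1 => hxV h1.2)
    have h2 := hx.2.2.2
    rw [this] at h2; norm_num at h2)
  have hfp : (f p : ℝ) ≤ 1/8 := clus_closed hp (isClosed_le hfc continuous_const)
    (fun n x hx => le_of_lt hx.2.2)
  have hfo : 3/8 ≤ (f o : ℝ) := clus_closed ho (isClosed_le continuous_const hfc)
    (fun n x hx => le_of_lt hx.2.2.1)
  have hne : p ≠ o := by rintro rfl; linarith
  rcases h.total p o hne with h1 | h1
  · exact h.clus_contra h1 hp ho (fun i j hij a ha b hb => hrel i j hij a b ha.1 ha.2.1 hb.1 hb.2.1)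
  · exact h.clus_contra h1 ho hp (fun i j hij a ha b hb => hrel i j hij a b ha.1 ha.2.1 hb.1 hb.2.1)

theorem IsT.compact [T35Space X] {R : X → X → Prop} (h : IsT R) (hl : LFC X) {C : Set X}
    (hC : IsPreconnected C) {m M : X} (hm : m ∈ C) (hM : M ∈ C) (hbot : ∀ c ∈ C, c = m ∨ R c m)
    (htop : ∀ c ∈ C, c = M ∨ R M c) : IsCompact C := by
  classical
  refine isCompact_of_finite_subcover fun {ι} U hU hsub => ?_
  set S : Set X := {c | c ∈ C ∧ ∃ t : Finset ι, {v | v ∈ C ∧ (v = c ∨ R c v)} ⊆ ⋃ i ∈ t, U i} with hS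
  have hcov : ∀ c ∈ C, ∃ i, c ∈ U i := fun c hc => mem_iUnion.1 (hsub hc)
  have hmS : m ∈ S := by
    obtain ⟨i, hi⟩ := hcov m hm
    refine ⟨hm, {i}, ?_⟩
    rintro v ⟨hv, hv2⟩
    have : v = m := by
      rcases hv2 with h1 | h1
      · exact h1
      · rcases hbot v hv with h2 | h2
        · exact h2
        · exact absurd h2 (h.asymm _ _ h1)
    rw [this]
    simpa using hi
  have hMS : M ∈ S := by
    by_contra hMS
    have up : ∀ c ∈ S, ∃ c' ∈ S, R c' c := by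
      rintro c ⟨hc, t, ht⟩
      have hcM : R M c := by
        rcases htop c hc with h1 | h1
        · exact absurd (h1 ▸ ⟨hc, t, ht⟩ : M ∈ S) hMS
        · exact h1
      obtain ⟨i, hi⟩ := hcov c hc
      obtain ⟨c', hc', hcc, hint⟩ := h.local_claim hl hC hc (hU i) hi ⟨M, hM, hcM⟩
      refine ⟨c', ⟨hc', insert i t, ?_⟩, hcc⟩
      rintro v ⟨hv, hv2⟩
      by_cases hvc : v = c
      · exact mem_biUnion (Finset.mem_insert_self i t) (by rw [hvc]; exact hi)
      rcases h.total v c hvc with h1 | h1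
      · exact mem_biUnion (Finset.mem_insert_self i t) (hint v hv (Or.inr h1) hv2)
      · obtain ⟨j, hj, hvj⟩ := mem_iUnion₂.1 (ht ⟨hv, Or.inr h1⟩)
        exact mem_biUnion (Finset.mem_insert_of_mem hj) hvj
    have down : ∀ c ∈ C, c ∉ S → ∃ c' ∈ C, c' ∉ S ∧ R c c' := by
      intro c hc hcS
      have hcm : R c m := by
        rcases hbot c hc with h1 | h1
        · exact absurd (h1 ▸ hmS) hcS
        · exact h1
      obtain ⟨i, hi⟩ := hcov c hc
      obtain ⟨c', hc', hcc, hint⟩ := h.flip.local_claim hl hC hc (hU i) hi ⟨m, hm, hcm⟩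
      refine ⟨c', hc', ?_, hcc⟩
      rintro ⟨-, t, ht⟩
      apply hcS
      refine ⟨hc, insert i t, ?_⟩
      rintro v ⟨hv, hv2⟩
      by_cases hvc : v = c'
      · exact mem_biUnion (Finset.mem_insert_self i t) (hint v hv hv2 (Or.inl hvc))
      rcases h.total v c' hvc with h1 | h1
      · exact mem_biUnion (Finset.mem_insert_self i t) (hint v hv hv2 (Or.inr h1))
      · obtain ⟨j, hj, hvj⟩ := mem_iUnion₂.1 (ht ⟨hv, Or.inr h1⟩)
        exact mem_biUnion (Finset.mem_insert_of_mem hj) hvj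
    have hu : IsOpen (⋃ c ∈ S, {x | R c x}) := isOpen_biUnion fun c _ => h.openR c
    have hv : IsOpen (⋃ c ∈ C \ S, {x | R x c}) := isOpen_biUnion fun c _ => h.openL c
    obtain ⟨e, heC, heu, hev⟩ := hC _ _ hu hv (by
      intro c hc
      by_cases hcS : c ∈ S
      · left
        obtain ⟨c', hc', hcc⟩ := up c hcS
        exact mem_biUnion hc' hcc
      · right
        obtain ⟨c', hc', hc'S, hcc⟩ := down c hc hcS
        exact mem_biUnion (show c' ∈ C \ S from ⟨hc', hc'S⟩) hcc) (by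
      obtain ⟨c', hc', hcc⟩ := up m hmS
      exact ⟨m, hm, mem_biUnion hc' hcc⟩) (by
      obtain ⟨c', hc', hc'S, hcc⟩ := down M hM hMS
      exact ⟨M, hM, mem_biUnion (show c' ∈ C \ S from ⟨hc', hc'S⟩) hcc⟩)
    obtain ⟨c1, hc1, hc1e⟩ := mem_iUnion₂.1 heu
    obtain ⟨c2, hc2, hc2e⟩ := mem_iUnion₂.1 hev
    have h12 : R c1 c2 := h.trans hC hc1.1 heC hc2.1 hc1e hc2e
    apply hc2.2
    obtain ⟨hc1C, t, ht⟩ := hc1
    refine ⟨hc2.1, t, ?_⟩
    rintro v ⟨hv, hv2⟩
    refine ht ⟨hv, Or.inr ?_⟩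
    rcases hv2 with rfl | h3
    · exact h12
    · exact h.trans hC hc1C hc2.1 hv h12 h3
  obtain ⟨-, t, ht⟩ := hMS
  refine ⟨t, fun v hv => ht ⟨hv, ?_⟩⟩
  exact htop v hv

theorem Kings.comp_compact [T35Space X] (hX : Kings X) {R : X → X → Prop} (h : IsT R) (hl : LFC X)
    (x : X) : IsCompact (connectedComponent x) := by
  obtain ⟨m, hm, hbot⟩ := hX.bottom h isPreconnected_connectedComponent isClosed_connectedComponent
    ⟨x, mem_connectedComponent⟩
  obtain ⟨M, hM, htop⟩ := hX.bottom h.flip isPreconnected_connectedComponent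
    isClosed_connectedComponent ⟨x, mem_connectedComponent⟩
  exact h.compact hl isPreconnected_connectedComponent hm hM hbot htop

end X198KS
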