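import Pool.Agent.X198.KS.Basic

open Set Filter Topology

namespace X198KS

variable {X : Type*} [TopologicalSpace X]

/-- cluster point of a sequence of sets -/
def Clus (W : ℕ → Set X) (q : X) : Prop := ∀ N ∈ 𝓝 q, ∃ᶠ n in atTop, (N ∩ W n).Nonempty

/-- feeble compactness of a set -/
def FC (U : Set X) : Prop :=
  ∀ W : ℕ → Set X, (∀ n, IsOpen (W n)) → (∀ n, (W n).Nonempty) → (∀ n, W n ⊆ U) → ∃ q, Clus W q

theorem FC.mono {U V : Set X} (hV : FC V) (hUV : U ⊆ V) : FC U := fun W h1 h2 h3 =>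
  hV W h1 h2 fun n => (h3 n).trans hUV

theorem clus_sub {W : ℕ → Set X} {k : ℕ → ℕ} (hk : StrictMono k) {q : X}
    (h : Clus (fun j => W (k j)) q) : Clus W q := fun N hN => hk.tendsto_atTop.frequently (h N hN)

theorem clus_mono {W W' : ℕ → Set X} (hW : ∀ n, W' n ⊆ W n) {q : X} (h : Clus W' q) : Clus W q :=
  fun N hN => (h N hN).mono fun n hn => hn.mono (inter_subset_inter_right _ (hW n))

theorem FC.union {U V : Set X} (hU : FC U) (hV : FC V) (hUo : IsOpen U) : FC (U ∪ V) := by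
  intro W h1 h2 h3
  by_cases hf : ∃ᶠ n in atTop, (W n ∩ U).Nonempty
  · obtain ⟨k, hk, hk2⟩ := extraction_of_frequently_atTop hf
    obtain ⟨q, hq⟩ := hU (fun j => W (k j) ∩ U) (fun j => (h1 _).inter hUo) hk2
      (fun j => inter_subset_right)
    exact ⟨q, clus_sub hk (clus_mono (fun j => inter_subset_left) hq)⟩
  · rw [not_frequently, eventually_atTop] at hf
    obtain ⟨n0, hn0⟩ := hf
    obtain ⟨q, hq⟩ := hV (fun j => W (j + n0)) (fun j => h1 _) (fun j => h2 _) (by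
      intro j x hx
      rcases h3 _ hx with h4 | h4
      · exact absurd ⟨x, hx, h4⟩ (hn0 _ (by omega))
      · exact h4)
    exact ⟨q, clus_sub (k := fun j => j + n0) (fun a b hab => by simpa using hab) hq⟩

/-- monotone refinement -/
theorem IsT.mono_seq {R : X → X → Prop} (h : IsT R) (W : ℕ → Set X) (hWo : ∀ n, IsOpen (W n))
    (p : X) (hp : ∀ N ∈ 𝓝 p, ∃ᶠ n in atTop, (N ∩ W n ∩ {a | R a p}).Nonempty) :
    ∃ (k : ℕ → ℕ) (W' : ℕ → Set X), StrictMono k ∧ (∀ j, IsOpen (W' j)) ∧ (∀ j, (W' j).Nonempty) ∧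
      (∀ j, W' j ⊆ W (k j)) ∧ ∀ i j, i < j → ∀ a ∈ W' i, ∀ b ∈ W' j, R a b := by
  classical
  have step : ∀ s : {s : Set X × ℕ × Set X // IsOpen s.1 ∧ p ∈ s.1},
      ∃ s' : {s : Set X × ℕ × Set X // IsOpen s.1 ∧ p ∈ s.1},
        s'.1.1 ⊆ s.1.1 ∧ s.1.2.1 < s'.1.2.1 ∧ IsOpen s'.1.2.2 ∧ s'.1.2.2.Nonempty ∧
        s'.1.2.2 ⊆ s.1.1 ∧ s'.1.2.2 ⊆ W s'.1.2.1 ∧ ∀ a ∈ s'.1.2.2, ∀ b ∈ s'.1.1, R a b := by
    rintro ⟨⟨N, n, V⟩, hN, hpN⟩
    obtain ⟨m, hm, ⟨x, ⟨hxN, hxW⟩, hx⟩⟩ := (frequently_atTop'.1 (hp N (hN.mem_nhds hpN))) n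
    obtain ⟨A, B, hA, hB, hxA, hpB, hAB⟩ := h.nhds hx
    refine ⟨⟨⟨N ∩ B, m, A ∩ N ∩ W m⟩, hN.inter hB, hpN, hpB⟩, inter_subset_left, hm,
      (hA.inter hN).inter (hWo m), ⟨x, ⟨hxA, hxN⟩, hxW⟩, fun a ha => ha.1.2, inter_subset_right, ?_⟩
    intro a ha b hb
    exact hAB a ha.1.1 b hb.2
  choose g hg using step
  set f : ℕ → {s : Set X × ℕ × Set X // IsOpen s.1 ∧ p ∈ s.1} :=
    fun n => g^[n] ⟨⟨univ, 0, ∅⟩, isOpen_univ, mem_univ _⟩ with hf
  have hf1 : ∀ n, f (n + 1) = g (f n) := fun n => by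
    simp only [hf, Function.iterate_succ_apply']
  have hanti : ∀ i j, i ≤ j → (f j).1.1 ⊆ (f i).1.1 := by
    intro i j hij
    induction hij with
    | refl => exact Subset.rfl
    | step _ ih =>
      rw [Nat.succ_eq_add_one, hf1]
      exact (hg _).1.trans ih
  refine ⟨fun j => (f (j + 1)).1.2.1, fun j => (f (j + 1)).1.2.2, ?_, ?_, ?_, ?_, ?_⟩
  · refine strictMono_nat_of_lt_succ fun j => ?_
    rw [hf1 (j + 1)]
    exact (hg _).2.1
  · intro j; simp only [hf1]; exact (hg _).2.2.1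
  · intro j; simp only [hf1]; exact (hg _).2.2.2.1
  · intro j; simp only [hf1]; exact (hg _).2.2.2.2.2.1
  · intro i j hij a ha b hb
    simp only [hf1] at ha hb
    refine (hg (f i)).2.2.2.2.2.2 a ha b ?_
    rw [← hf1]
    exact hanti (i + 1) j hij ((hg (f j)).2.2.2.2.1 hb)

/-- convergence from monotonicity -/
theorem IsT.conv {R : X → X → Prop} (h : IsT R) {U : Set X} (hU : FC U) (W : ℕ → Set X)
    (hWo : ∀ n, IsOpen (W n)) (hWn : ∀ n, (W n).Nonempty) (hWU : ∀ n, W n ⊆ U)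
    (hmono : ∀ i j, i < j → ∀ a ∈ W i, ∀ b ∈ W j, R a b) :
    ∃ q, ∀ N ∈ 𝓝 q, ∀ᶠ n in atTop, (N ∩ W n).Nonempty := by
  obtain ⟨q, hq⟩ := hU W hWo hWn hWU
  refine ⟨q, fun N hN => ?_⟩
  by_contra hcon
  rw [not_eventually] at hcon
  obtain ⟨k, hk, hk2⟩ := extraction_of_frequently_atTop hcon
  obtain ⟨q', hq'⟩ := hU (fun j => W (k j)) (fun j => hWo _) (fun j => hWn _) (fun j => hWU _)
  have hne : q ≠ q' := by
    rintro rfl
    obtain ⟨j, hj⟩ := (hq' N hN).exists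
    exact hk2 j hj
  have hq'' : Clus W q' := clus_sub hk hq'
  have main : ∀ s t : X, R s t → Clus W s → Clus W t → False := by
    intro s t hst hs ht
    obtain ⟨A, B, hA, hB, hsA, htB, hAB⟩ := h.nhds hst
    obtain ⟨i, hi⟩ := (ht B (hB.mem_nhds htB)).exists
    obtain ⟨j, hij, hj⟩ := (frequently_atTop'.1 (hs A (hA.mem_nhds hsA))) i
    obtain ⟨b, hb, hbW⟩ := hi
    obtain ⟨a, ha, haW⟩ := hj
    exact h.asymm _ _ (hAB a ha b hb) (hmono i j hij b hbW a haW)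
  rcases h.total q q' hne with h1 | h1
  · exact main q q' h1 hq hq''
  · exact main q' q h1 hq'' hq

/-- every sequence of open sets can be shrunk to a convergent one -/
theorem IsT.shrink {R : X → X → Prop} (h : IsT R) {U : Set X} (hU : FC U) (W : ℕ → Set X)
    (hWo : ∀ n, IsOpen (W n)) (hWn : ∀ n, (W n).Nonempty) (hWU : ∀ n, W n ⊆ U) :
    ∃ (k : ℕ → ℕ) (W' : ℕ → Set X) (q : X), StrictMono k ∧ (∀ j, W' j ⊆ W (k j)) ∧
      ∀ N ∈ 𝓝 q, ∀ᶠ n in atTop, (N ∩ W' n).Nonempty := by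
  obtain ⟨p, hp⟩ := hU W hWo hWn hWU
  by_cases hiso : IsOpen ({p} : Set X)
  · obtain ⟨k, hk, hk2⟩ := extraction_of_frequently_atTop (hp {p} (hiso.mem_nhds rfl))
    refine ⟨k, fun _ => {p}, p, hk, fun j => ?_, fun N hN => Eventually.of_forall fun n =>
      ⟨p, mem_of_mem_nhds hN, rfl⟩⟩
    obtain ⟨x, hx, hx2⟩ := hk2 j
    rw [mem_singleton_iff] at hx
    subst hx
    exact singleton_subset_iff.2 hx2
  · have hne : ∀ N ∈ 𝓝 p, ∃ᶠ n in atTop, (N ∩ W n ∩ {a | R a p}).Nonempty ∨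
        (N ∩ W n ∩ {a | R p a}).Nonempty := by
      intro N hN
      obtain ⟨N', hN', hN'o, hpN'⟩ := mem_nhds_iff.1 hN
      refine (hp N' (hN'o.mem_nhds hpN')).mono fun n hn => ?_
      obtain ⟨x, hx, hx2⟩ := hn
      have : ∃ y ∈ N' ∩ W n, y ≠ p := by
        by_contra hcon
        push Not at hcon
        apply hiso
        have hxp := hcon x ⟨hx, hx2⟩
        have : ({p} : Set X) = N' ∩ W n := by
          ext y
          constructor
          · intro hy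
            rw [mem_singleton_iff] at hy
            rw [hy, ← hxp]; exact ⟨hx, hx2⟩
          · intro hy; exact hcon y hy
        rw [this]; exact hN'o.inter (hWo n)
      obtain ⟨y, hy, hyp⟩ := this
      rcases h.total y p hyp with h1 | h1
      · exact Or.inl ⟨y, ⟨hN' hy.1, hy.2⟩, h1⟩
      · exact Or.inr ⟨y, ⟨hN' hy.1, hy.2⟩, h1⟩
    have hcase : (∀ N ∈ 𝓝 p, ∃ᶠ n in atTop, (N ∩ W n ∩ {a | R a p}).Nonempty) ∨
        (∀ N ∈ 𝓝 p, ∃ᶠ n in atTop, (N ∩ W n ∩ {a | R p a}).Nonempty) := by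
      by_contra hcon
      push Not at hcon
      obtain ⟨⟨N1, hN1, h1⟩, ⟨N2, hN2, h2⟩⟩ := hcon
      have h3 := hne (N1 ∩ N2) (inter_mem hN1 hN2)
      rw [frequently_or_distrib] at h3
      rcases h3 with h3 | h3
      · obtain ⟨n, hn, hn2⟩ := (h3.and_eventually h1).exists
        have : (N1 ∩ W n ∩ {a | R a p}).Nonempty :=
          hn.mono (inter_subset_inter_left _ (inter_subset_inter_left _ inter_subset_left))
        rw [hn2] at this
        exact not_nonempty_empty this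
      · obtain ⟨n, hn, hn2⟩ := (h3.and_eventually h2).exists
        have : (N2 ∩ W n ∩ {a | R p a}).Nonempty :=
          hn.mono (inter_subset_inter_left _ (inter_subset_inter_left _ inter_subset_right))
        rw [hn2] at this
        exact not_nonempty_empty this
    rcases hcase with hc | hc
    · obtain ⟨k, W', hk, h1, h2, h3, h4⟩ := h.mono_seq W hWo p hc
      obtain ⟨q, hq⟩ := h.conv hU W' h1 h2 (fun n => (h3 n).trans (hWU _)) h4
      exact ⟨k, W', q, hk, h3, hq⟩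
    · obtain ⟨k, W', hk, h1, h2, h3, h4⟩ := h.flip.mono_seq W hWo p hc
      obtain ⟨q, hq⟩ := h.flip.conv hU W' h1 h2 (fun n => (h3 n).trans (hWU _)) h4
      exact ⟨k, W', q, hk, h3, hq⟩

/-- the pattern which is impossible -/
theorem IsT.pattern {R : X → X → Prop} (h : IsT R) {A B V : Set X} (hA : IsClosed A)
    (hB : IsClosed B) (hAB : ∀ x ∈ A, x ∉ B) (hV : FC V) (U W : ℕ → Set X)
    (hUo : ∀ n, IsOpen (U n)) (hUn : ∀ n, (U n).Nonempty) (hUV : ∀ n, U n ⊆ V)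
    (hUA : ∀ n, U n ⊆ A) (hWB : ∀ n, W n ⊆ B)
    (hWc : ∀ k : ℕ → ℕ, StrictMono k → ∃ r, Clus (fun j => W (k j)) r)
    (hpat : ∀ n, ((∀ a ∈ U n, ∀ b ∈ W n, R a b) ∧ ∀ m, n < m → ∀ a ∈ U m, ∀ b ∈ W n, R b a) ∨
      ((∀ a ∈ U n, ∀ b ∈ W n, R b a) ∧ ∀ m, n < m → ∀ a ∈ U m, ∀ b ∈ W n, R a b)) : False := by
  obtain ⟨k, U', q, hk, hU', hq⟩ := h.shrink hV U hUo hUn hUV
  obtain ⟨r, hr⟩ := hWc k hk
  have hqA : q ∈ A := by
    by_contra hqA
    obtain ⟨n, x, hx, hx2⟩ := (hq Aᶜ (hA.isOpen_compl.mem_nhds hqA)).exists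
    exact hx (hUA _ (hU' n hx2))
  have hrB : r ∈ B := by
    by_contra hrB
    obtain ⟨n, x, hx, hx2⟩ := (hr Bᶜ (hB.isOpen_compl.mem_nhds hrB)).exists
    exact hx (hWB _ hx2)
  have hne : q ≠ r := by rintro rfl; exact hAB _ hqA hrB
  have main : ∀ N ∈ 𝓝 q, ∀ S ∈ 𝓝 r, ∃ m n, n < m ∧ ∃ a ∈ N ∩ U n, ∃ b ∈ S ∩ W n, ∃ c ∈ N ∩ U m, True := by
    intro N hN S hS
    have h1 := (hr S hS).and_eventually (hq N hN)
    obtain ⟨j, ⟨b, hb, hb2⟩, ⟨a, ha, ha2⟩⟩ := h1.exists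
    obtain ⟨j', hj', ⟨b', hb', hb2'⟩, ⟨a', ha', ha2'⟩⟩ := (frequently_atTop'.1 h1) j
    exact ⟨k j', k j, hk hj', a, ⟨ha, hU' _ ha2⟩, b, ⟨hb, hb2⟩, a', ⟨ha', hU' _ ha2'⟩, trivial⟩
  rcases h.total q r hne with h1 | h1
  · obtain ⟨N, S, hN, hS, hqN, hrS, hNS⟩ := h.nhds h1
    obtain ⟨m, n, hmn, a, ha, b, hb, c, hc, -⟩ := main N (hN.mem_nhds hqN) S (hS.mem_nhds hrS)
    rcases hpat n with ⟨-, h2⟩ | ⟨h2, -⟩
    · exact h.asymm _ _ (hNS c hc.1 b hb.1) (h2 m hmn c hc.2 b hb.2)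
    · exact h.asymm _ _ (hNS a ha.1 b hb.1) (h2 a ha.2 b hb.2)
  · obtain ⟨S, N, hS, hN, hrS, hqN, hNS⟩ := h.nhds h1
    obtain ⟨m, n, hmn, a, ha, b, hb, c, hc, -⟩ := main N (hN.mem_nhds hqN) S (hS.mem_nhds hrS)
    rcases hpat n with ⟨h2, -⟩ | ⟨-, h2⟩
    · exact h.asymm _ _ (hNS b hb.1 a ha.1) (h2 a ha.2 b hb.2)
    · exact h.asymm _ _ (hNS b hb.1 c hc.1) (h2 m hmn c hc.2 b hb.2)

/-- pseudocompact closures are feebly compact -/
theorem fc_of_pseudo [T35Space X] {U : Set X}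
    (hp : ∀ f : closure U → ℝ, Continuous f → ∃ M, ∀ x, |f x| ≤ M) : FC U := by
  intro W h1 h2 h3
  by_contra hcon
  have hlf : LocallyFinite W := by
    intro x
    have : ∃ N ∈ 𝓝 x, ¬ ∃ᶠ n in atTop, (N ∩ W n).Nonempty := by
      by_contra hc
      push Not at hc
      exact hcon ⟨x, fun N hN => by simpa using hc N hN⟩
    obtain ⟨N, hN, hN2⟩ := this
    rw [not_frequently, eventually_atTop] at hN2
    obtain ⟨n0, hn0⟩ := hN2
    refine ⟨N, hN, (finite_Iio n0).subset fun n hn => ?_⟩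
    by_contra hc
    refine hn0 n (not_lt.1 hc) ?_
    rw [inter_comm]; exact hn
  choose w hw using h2
  have hf : ∀ n, ∃ f : X → unitInterval, Continuous f ∧ f (w n) = 0 ∧ EqOn f 1 (W n)ᶜ := fun n =>
    CompletelyRegularSpace.completely_regular (w n) _ (h1 n).isClosed_compl (fun hc => hc (hw n))
  choose f hf1 hf2 hf3 using hf
  set g : ℕ → X → ℝ := fun n x => n * (1 - (f n x : ℝ)) with hg
  have hg0 : ∀ n x, 0 ≤ g n x := fun n x =>
    mul_nonneg (Nat.cast_nonneg n) (sub_nonneg.2 (f n x).2.2)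
  have hsupp : ∀ n, Function.support (g n) ⊆ W n := by
    intro n x hx
    by_contra hc
    apply hx
    have := hf3 n hc
    simp only [Pi.one_apply] at this
    simp only [hg, this]
    simp
  have hlf2 : LocallyFinite fun n => Function.support (g n) := hlf.subset hsupp
  have hcont : Continuous fun x => ∑ᶠ n, g n x := by
    refine continuous_finsum (fun n => ?_) hlf2
    exact continuous_const.mul (continuous_const.sub (continuous_subtype_val.comp (hf1 n)))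
  obtain ⟨M, hM⟩ := hp (fun x => ∑ᶠ n, g n x.1) (hcont.comp continuous_subtype_val)
  obtain ⟨n, hn⟩ := exists_nat_gt M
  have h4 := hM ⟨w n, subset_closure (h3 n (hw n))⟩
  have h5 : g n (w n) ≤ ∑ᶠ m, g m (w n) := by
    refine single_le_finsum (f := fun m => g m (w n)) n ?_ (fun m => hg0 m _)
    exact (hlf2.point_finite (w n)).subset fun m hm => hm
  have h6 : g n (w n) = n := by simp [hg, hf2]
  have h7 := le_abs_self (∑ᶠ m, g m (w n))
  simp only at h4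
  linarith

end X198KS
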