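import Pool.Agent.X198.KS.Clop

open Set Filter Topology

namespace X198KS

variable {X : Type*} [TopologicalSpace X]

theorem IsT.unif0 {R : X → X → Prop} (h : IsT R) {V W : Set X} (hV : IsClopen V) (hW : IsClopen W)
    (hdis : ∀ x ∈ V, x ∉ W) (hVF : FC V) (hWF : FC W) {y : X} (hy : y ∈ V) :
    ∃ V' : Set X, IsOpen V' ∧ y ∈ V' ∧ V' ⊆ V ∧ ∀ u ∈ V', ∀ x ∈ W, (R u x ↔ R y x) := by
  by_contra hcon
  have hcon' : ∀ V' : Set X, IsOpen V' → y ∈ V' → V' ⊆ V → ∃ u ∈ V', ∃ x ∈ W,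
      (R u x ∧ R x y) ∨ (R x u ∧ R y x) := by
    intro V' h1 h2 h3
    by_contra hc
    apply hcon
    refine ⟨V', h1, h2, h3, fun u hu x hx => ?_⟩
    have hux : u ≠ x := by rintro rfl; exact hdis _ (h3 hu) hx
    have hyx : y ≠ x := by rintro rfl; exact hdis _ hy hx
    have h4 := h.total u x hux
    have h5 := h.total y x hyx
    have h6 : ¬ ((R u x ∧ R x y) ∨ (R x u ∧ R y x)) := fun h6 => hc ⟨u, hu, x, hx, h6⟩
    constructor
    · intro h7
      rcases h5 with h5 | h5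
      · exact h5
      · exact absurd (Or.inl ⟨h7, h5⟩) h6
    · intro h7
      rcases h4 with h4 | h4
      · exact h4
      · exact absurd (Or.inr ⟨h4, h7⟩) h6
  have step : ∀ s : {s : Set X × Set X × Set X // IsOpen s.1 ∧ y ∈ s.1 ∧ s.1 ⊆ V},
      ∃ s' : {s : Set X × Set X × Set X // IsOpen s.1 ∧ y ∈ s.1 ∧ s.1 ⊆ V},
        s'.1.1 ⊆ s.1.1 ∧ (IsOpen s'.1.2.1 ∧ s'.1.2.1.Nonempty ∧ s'.1.2.1 ⊆ s.1.1) ∧
        (IsOpen s'.1.2.2 ∧ s'.1.2.2.Nonempty ∧ s'.1.2.2 ⊆ W) ∧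
        (((∀ a ∈ s'.1.2.1, ∀ b ∈ s'.1.2.2, R a b) ∧ (∀ a ∈ s'.1.1, ∀ b ∈ s'.1.2.2, R b a)) ∨
         ((∀ a ∈ s'.1.2.1, ∀ b ∈ s'.1.2.2, R b a) ∧ (∀ a ∈ s'.1.1, ∀ b ∈ s'.1.2.2, R a b))) := by
    rintro ⟨⟨N, Y, Z⟩, hN, hyN, hNV⟩
    obtain ⟨u, hu, x, hx, hux⟩ := hcon' N hN hyN hNV
    rcases hux with ⟨h1, h2⟩ | ⟨h1, h2⟩
    · obtain ⟨A, B, hA, hB, haA, hbB, hAB⟩ := h.nhds h1
      obtain ⟨A', B', hA', hB', haA', hbB', hAB'⟩ := h.nhds h2
      refine ⟨⟨⟨N ∩ B', A ∩ N, (B ∩ A') ∩ W⟩, hN.inter hB', ⟨hyN, hbB'⟩,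
        inter_subset_left.trans hNV⟩, inter_subset_left, ⟨hA.inter hN, ⟨u, haA, hu⟩,
        inter_subset_right⟩, ⟨(hB.inter hA').inter hW.isOpen, ⟨x, ⟨hbB, haA'⟩, hx⟩,
        inter_subset_right⟩, Or.inl ⟨fun a ha b hb => hAB a ha.1 b hb.1.1,
        fun a ha b hb => hAB' b hb.1.2 a ha.2⟩⟩
    · obtain ⟨A, B, hA, hB, haA, hbB, hAB⟩ := h.nhds h1
      obtain ⟨A', B', hA', hB', haA', hbB', hAB'⟩ := h.nhds h2
      refine ⟨⟨⟨N ∩ A', B ∩ N, (A ∩ B') ∩ W⟩, hN.inter hA', ⟨hyN, haA'⟩,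
        inter_subset_left.trans hNV⟩, inter_subset_left, ⟨hB.inter hN, ⟨u, hbB, hu⟩,
        inter_subset_right⟩, ⟨(hA.inter hB').inter hW.isOpen, ⟨x, ⟨haA, hbB'⟩, hx⟩,
        inter_subset_right⟩, Or.inr ⟨fun a ha b hb => hAB b hb.1.1 a ha.1,
        fun a ha b hb => hAB' a ha.2 b hb.1.2⟩⟩
  choose g hg using step
  set F : ℕ → {s : Set X × Set X × Set X // IsOpen s.1 ∧ y ∈ s.1 ∧ s.1 ⊆ V} :=
    fun n => g^[n] ⟨⟨V, ∅, ∅⟩, hV.isOpen, hy, Subset.rfl⟩ with hF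
  have hF1 : ∀ n, F (n + 1) = g (F n) := fun n => by
    simp only [hF, Function.iterate_succ_apply']
  have hanti : ∀ i j, i ≤ j → (F j).1.1 ⊆ (F i).1.1 := by
    intro i j hij
    induction hij with
    | refl => exact Subset.rfl
    | step _ ih =>
      rw [Nat.succ_eq_add_one, hF1]
      exact (hg _).1.trans ih
  refine h.pattern (A := V) (B := W) hV.isClosed hW.isClosed hdis hVF
    (fun n => (F (n+1)).1.2.1) (fun n => (F (n+1)).1.2.2) ?_ ?_ ?_ ?_ ?_ ?_ ?_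
  · intro n; simp only [hF1]; exact (hg _).2.1.1
  · intro n; simp only [hF1]; exact (hg _).2.1.2.1
  · intro n; simp only [hF1]; exact (hg _).2.1.2.2.trans (F n).2.2.2
  · intro n; simp only [hF1]; exact (hg _).2.1.2.2.trans (F n).2.2.2
  · intro n; simp only [hF1]; exact (hg _).2.2.1.2.2
  · intro k hk
    refine hWF _ (fun j => ?_) (fun j => ?_) (fun j => ?_)
    · rw [hF1]; exact (hg _).2.2.1.1
    · rw [hF1]; exact (hg _).2.2.1.2.1
    · rw [hF1]; exact (hg _).2.2.1.2.2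
  · intro n
    have hsub : ∀ m, n < m → (F (m+1)).1.2.1 ⊆ (F (n+1)).1.1 := by
      intro m hnm
      rw [hF1 m]
      exact (hg (F m)).2.1.2.2.trans (hanti (n+1) m hnm)
    simp only [hF1 n] at hsub ⊢
    rcases (hg (F n)).2.2.2 with ⟨h1, h2⟩ | ⟨h1, h2⟩
    · exact Or.inl ⟨h1, fun m hnm a ha b hb => h2 a (hsub m hnm ha) b hb⟩
    · exact Or.inr ⟨h1, fun m hnm a ha b hb => h2 a (hsub m hnm ha) b hb⟩

/-- sequences of clopen sets cluster -/
theorem clopen_clus (hb : ∀ r : X → ℕ, Continuous r → ∃ M, ∀ x, r x ≤ M) (W : ℕ → Set X)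
    (hW : ∀ n, IsClopen (W n)) (hne : ∀ n, (W n).Nonempty) : ∃ q, Clus W q := by
  classical
  by_contra hcon
  have hlf : LocallyFinite W := by
    intro x
    have : ∃ N ∈ 𝓝 x, ¬ ∃ᶠ n in atTop, (N ∩ W n).Nonempty := by
      by_contra hc
      push Not at hc
      exact hcon ⟨x, fun N hN => by simpa using hc N hN⟩
    obtain ⟨N, hN, hN2⟩ := this
    rw [not_frequently, eventually_atTop] at hN2
    obtain ⟨n0, hn0⟩ := hN2
    refine ⟨N, hN, (finite_Iio n0).subset fun n hn => ?_⟩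
    by_contra hc
    refine hn0 n (not_lt.1 hc) ?_
    rw [inter_comm]; exact hn
  set g : ℕ → X → ℕ := fun n x => n * (if x ∈ W n then 1 else 0) with hg
  have hsupp : ∀ n, Function.support (g n) ⊆ W n := by
    intro n x hx
    by_contra hc
    apply hx
    simp [hg, hc]
  have hlf2 : LocallyFinite fun n => Function.support (g n) := hlf.subset hsupp
  have hcont : Continuous fun x => ∑ᶠ n, g n x :=
    continuous_finsum (fun n => continuous_const.mul (cont_ind (hW n))) hlf2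
  obtain ⟨M, hM⟩ := hb _ hcont
  obtain ⟨x, hx⟩ := hne (M + 1)
  have h5 : g (M+1) x ≤ ∑ᶠ m, g m x := by
    refine single_le_finsum (f := fun m => g m x) (M+1) ?_ (fun m => Nat.zero_le _)
    exact (hlf2.point_finite x).subset fun m hm => hm
  have h6 : g (M+1) x = M + 1 := by simp [hg, hx]
  have h7 := hM x
  omega

theorem IsT.unif {R : X → X → Prop} (h : IsT R)
    (hb : ∀ r : X → ℕ, Continuous r → ∃ M, ∀ x, r x ≤ M)
    (hbase : ∀ (x : X) (T : Set X), IsClopen T → x ∈ T → ∃ D : Set X, IsClopen D ∧ FC D ∧ x ∈ D ∧ D ⊆ T)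
    {V : Set X} (hV : IsClopen V) (hVF : FC V) {y : X} (hy : y ∈ V) :
    ∃ V' : Set X, IsOpen V' ∧ y ∈ V' ∧ V' ⊆ V ∧ ∀ u ∈ V', ∀ x, x ∉ V → (R u x ↔ R y x) := by
  by_contra hcon
  have hcon' : ∀ V' : Set X, IsOpen V' → y ∈ V' → V' ⊆ V → ∃ u ∈ V', ∃ x, x ∉ V ∧
      ((R u x ∧ R x y) ∨ (R x u ∧ R y x)) := by
    intro V' h1 h2 h3
    by_contra hc
    apply hcon
    refine ⟨V', h1, h2, h3, fun u hu x hx => ?_⟩
    have hux : u ≠ x := by rintro rfl; exact hx (h3 hu)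
    have hyx : y ≠ x := by rintro rfl; exact hx hy
    have h4 := h.total u x hux
    have h5 := h.total y x hyx
    have h6 : ¬ ((R u x ∧ R x y) ∨ (R x u ∧ R y x)) := fun h6 => hc ⟨u, hu, x, hx, h6⟩
    constructor
    · intro h7
      rcases h5 with h5 | h5
      · exact h5
      · exact absurd (Or.inl ⟨h7, h5⟩) h6
    · intro h7
      rcases h4 with h4 | h4
      · exact h4
      · exact absurd (Or.inr ⟨h4, h7⟩) h6
  have hclR : ∀ w ∈ V, IsClopen (Vᶜ ∩ {x | R w x}) := by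
    intro w hw
    refine ⟨?_, hV.compl.isOpen.inter (h.openR w)⟩
    rw [← isOpen_compl_iff]
    have : (Vᶜ ∩ {x | R w x})ᶜ = V ∪ {x | R x w} := by
      ext x
      by_cases hx : x ∈ V
      · simp [hx]
      · have h1 : w ≠ x := by rintro rfl; exact hx hw
        have h2 := h.total w x h1
        have h3 := h.asymm w x
        simp only [mem_compl_iff, mem_inter_iff, Set.mem_ofPred_eq, mem_union, hx, not_false_eq_true,
          true_and, false_or]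
        tauto
    rw [this]
    exact hV.isOpen.union (h.openL w)
  have hclL : ∀ w ∈ V, IsClopen (Vᶜ ∩ {x | R x w}) := by
    intro w hw
    have : Vᶜ ∩ {x | R x w} = Vᶜ ∩ (Vᶜ ∩ {x | R w x})ᶜ := by
      ext x
      by_cases hx : x ∈ V
      · simp [hx]
      · have h1 : w ≠ x := by rintro rfl; exact hx hw
        have h2 := h.total w x h1
        have h3 := h.asymm w x
        simp only [mem_compl_iff, mem_inter_iff, Set.mem_ofPred_eq, hx, not_false_eq_true,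
          true_and]
        tauto
    rw [this]
    exact hV.compl.inter (hclR w hw).compl
  have step : ∀ s : {s : Set X × Set X × Set X // IsOpen s.1 ∧ y ∈ s.1 ∧ s.1 ⊆ V},
      ∃ s' : {s : Set X × Set X × Set X // IsOpen s.1 ∧ y ∈ s.1 ∧ s.1 ⊆ V},
        s'.1.1 ⊆ s.1.1 ∧ (IsOpen s'.1.2.1 ∧ s'.1.2.1.Nonempty ∧ s'.1.2.1 ⊆ s.1.1) ∧
        (IsClopen s'.1.2.2 ∧ s'.1.2.2.Nonempty ∧ s'.1.2.2 ⊆ Vᶜ) ∧
        (((∀ a ∈ s'.1.2.1, ∀ b ∈ s'.1.2.2, R a b) ∧ (∀ a ∈ s'.1.1, ∀ b ∈ s'.1.2.2, R b a)) ∨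
         ((∀ a ∈ s'.1.2.1, ∀ b ∈ s'.1.2.2, R b a) ∧ (∀ a ∈ s'.1.1, ∀ b ∈ s'.1.2.2, R a b))) := by
    rintro ⟨⟨N, Y, Z⟩, hN, hyN, hNV⟩
    obtain ⟨u, hu, x, hx, hux⟩ := hcon' N hN hyN hNV
    rcases hux with ⟨h1, h2⟩ | ⟨h1, h2⟩
    · obtain ⟨D, hD, hDF, hxD, hDT⟩ := hbase x ((Vᶜ ∩ {x | R u x}) ∩ (Vᶜ ∩ {x | R x y}))
        ((hclR u (hNV hu)).inter (hclL y hy)) ⟨⟨hx, h1⟩, ⟨hx, h2⟩⟩
      have hdis : ∀ w ∈ V, w ∉ D := fun w hw hwD => (hDT hwD).1.1 hw
      obtain ⟨A, hA, huA, hAV, hAD⟩ := h.unif0 hV hD hdis hVF hDF (hNV hu)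
      obtain ⟨B, hB, hyB, hBV, hBD⟩ := h.flip.unif0 hV hD hdis hVF hDF hy
      refine ⟨⟨⟨N ∩ B, A ∩ N, D⟩, hN.inter hB, ⟨hyN, hyB⟩,
        inter_subset_left.trans hNV⟩, inter_subset_left, ⟨hA.inter hN, ⟨u, huA, hu⟩,
        inter_subset_right⟩, ⟨hD, ⟨x, hxD⟩, fun w hw => (hDT hw).1.1⟩, Or.inl ⟨?_, ?_⟩⟩
      · intro a ha b hb
        exact (hAD a ha.1 b hb).2 (hDT hb).1.2
      · intro a ha b hb
        exact (hBD a ha.2 b hb).2 (hDT hb).2.2
    · obtain ⟨D, hD, hDF, hxD, hDT⟩ := hbase x ((Vᶜ ∩ {x | R x u}) ∩ (Vᶜ ∩ {x | R y x}))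
        ((hclL u (hNV hu)).inter (hclR y hy)) ⟨⟨hx, h1⟩, ⟨hx, h2⟩⟩
      have hdis : ∀ w ∈ V, w ∉ D := fun w hw hwD => (hDT hwD).1.1 hw
      obtain ⟨A, hA, huA, hAV, hAD⟩ := h.flip.unif0 hV hD hdis hVF hDF (hNV hu)
      obtain ⟨B, hB, hyB, hBV, hBD⟩ := h.unif0 hV hD hdis hVF hDF hy
      refine ⟨⟨⟨N ∩ B, A ∩ N, D⟩, hN.inter hB, ⟨hyN, hyB⟩,
        inter_subset_left.trans hNV⟩, inter_subset_left, ⟨hA.inter hN, ⟨u, huA, hu⟩,
        inter_subset_right⟩, ⟨hD, ⟨x, hxD⟩, fun w hw => (hDT hw).1.1⟩, Or.inr ⟨?_, ?_⟩⟩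
      · intro a ha b hb
        exact (hAD a ha.1 b hb).2 (hDT hb).1.2
      · intro a ha b hb
        exact (hBD a ha.2 b hb).2 (hDT hb).2.2
  choose g hg using step
  set F : ℕ → {s : Set X × Set X × Set X // IsOpen s.1 ∧ y ∈ s.1 ∧ s.1 ⊆ V} :=
    fun n => g^[n] ⟨⟨V, ∅, ∅⟩, hV.isOpen, hy, Subset.rfl⟩ with hF
  have hF1 : ∀ n, F (n + 1) = g (F n) := fun n => by
    simp only [hF, Function.iterate_succ_apply']
  have hanti : ∀ i j, i ≤ j → (F j).1.1 ⊆ (F i).1.1 := by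
    intro i j hij
    induction hij with
    | refl => exact Subset.rfl
    | step _ ih =>
      rw [Nat.succ_eq_add_one, hF1]
      exact (hg _).1.trans ih
  refine h.pattern (A := V) (B := Vᶜ) hV.isClosed hV.compl.isClosed (fun x hx hx2 => hx2 hx) hVF
    (fun n => (F (n+1)).1.2.1) (fun n => (F (n+1)).1.2.2) ?_ ?_ ?_ ?_ ?_ ?_ ?_
  · intro n; simp only [hF1]; exact (hg _).2.1.1
  · intro n; simp only [hF1]; exact (hg _).2.1.2.1
  · intro n; simp only [hF1]; exact (hg _).2.1.2.2.trans (F n).2.2.2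
  · intro n; simp only [hF1]; exact (hg _).2.1.2.2.trans (F n).2.2.2
  · intro n; simp only [hF1]; exact (hg _).2.2.1.2.2
  · intro k hk
    refine clopen_clus hb _ (fun j => ?_) (fun j => ?_)
    · rw [hF1]; exact (hg _).2.2.1.1
    · rw [hF1]; exact (hg _).2.2.1.2.1
  · intro n
    have hsub : ∀ m, n < m → (F (m+1)).1.2.1 ⊆ (F (n+1)).1.1 := by
      intro m hnm
      rw [hF1 m]
      exact (hg (F m)).2.1.2.2.trans (hanti (n+1) m hnm)
    simp only [hF1 n] at hsub ⊢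
    rcases (hg (F n)).2.2.2 with ⟨h1, h2⟩ | ⟨h1, h2⟩
    · exact Or.inl ⟨h1, fun m hnm a ha b hb => h2 a (hsub m hnm ha) b hb⟩
    · exact Or.inr ⟨h1, fun m hnm a ha b hb => h2 a (hsub m hnm ha) b hb⟩

/-- locally constant functions have finite range -/
theorem fin_range {Y : Type*} (hb : ∀ r : X → ℕ, Continuous r → ∃ M, ∀ x, r x ≤ M) (f : X → Y)
    (hf : IsLocallyConstant f) : (range f).Finite := by
  by_contra hinf
  set e := Set.Infinite.natEmbedding (range f) hinf with he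
  set g : Y → ℕ := Function.extend (fun n => (e n : Y)) id 0 with hg
  have hinj : Function.Injective (fun n => (e n : Y)) := fun a b hab => e.injective (Subtype.ext hab)
  obtain ⟨M, hM⟩ := hb (g ∘ f) (hf.comp g).continuous
  obtain ⟨x, hx⟩ := (e (M + 1)).2
  have h1 := hM x
  simp only [Function.comp] at h1
  rw [hx] at h1
  have h2 : g (e (M+1)) = M + 1 := hinj.extend_apply id 0 (M+1)
  rw [h2] at h1
  omega

open Classical in
theorem Kings.final [T35Space X] (hX : Kings X) {R : X → X → Prop} (h : IsT R) (hl : LFC X)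
    (p : Ultrafilter X) (hp : ∀ x, ¬ (p : Filter X) ≤ 𝓝 x) (hL : {y | {x | R y x} ∈ p} ∈ p) :
    False := by
  have hb : ∀ r : X → ℕ, Continuous r → ∃ M, ∀ x, r x ≤ M := fun r hr => hX.bdd h hr
  have hbase : ∀ (x : X) (T : Set X), IsClopen T → x ∈ T →
      ∃ D : Set X, IsClopen D ∧ FC D ∧ x ∈ D ∧ D ⊆ T := by
    intro x T hT hxT
    obtain ⟨D, h1, h2, h3, h4⟩ := hX.clopen_base h hl x hT.isOpen (hT.connectedComponent_subset hxT)
    exact ⟨D, h1, h4, h2 mem_connectedComponent, h3⟩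
  have hVex : ∀ y : X, ∃ V : Set X, IsClopen V ∧ FC V ∧ y ∈ V ∧ V ∉ p := by
    intro y
    have : ∃ U : Set X, IsOpen U ∧ connectedComponent y ⊆ U ∧ U ∉ p := by
      refine (hX.comp_compact h hl y).induction_on
        (p := fun s => ∃ U : Set X, IsOpen U ∧ s ⊆ U ∧ U ∉ p) ?_ ?_ ?_ ?_
      · exact ⟨∅, isOpen_empty, Subset.rfl, p.empty_notMem⟩
      · rintro s t hst ⟨U, h1, h2, h3⟩
        exact ⟨U, h1, hst.trans h2, h3⟩
      · rintro s t ⟨U, h1, h2, h3⟩ ⟨U', h1', h2', h3'⟩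
        refine ⟨U ∪ U', h1.union h1', union_subset_union h2 h2', ?_⟩
        rw [Ultrafilter.union_mem_iff]
        tauto
      · intro x _
        have h1 := hp x
        rw [Filter.le_def] at h1
        push Not at h1
        obtain ⟨N, hN, hNp⟩ := h1
        obtain ⟨N', hN', hN'o, hxN'⟩ := mem_nhds_iff.1 hN
        exact ⟨N', mem_nhdsWithin_of_mem_nhds (hN'o.mem_nhds hxN'), N', hN'o, Subset.rfl,
          fun h2 => hNp (mem_of_superset h2 hN')⟩
    obtain ⟨U, h1, h2, h3⟩ := this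
    obtain ⟨D, g1, g2, g3, g4⟩ := hX.clopen_base h hl y h1 h2
    exact ⟨D, g1, g4, g2 mem_connectedComponent, fun h4 => h3 (mem_of_superset h4 g3)⟩
  set L : Set X := {y | {x | R y x} ∈ p} with hLdef
  have hLcl : IsClopen L := by
    have key : ∀ y, ∃ V' : Set X, IsOpen V' ∧ y ∈ V' ∧ ∀ u ∈ V', (u ∈ L ↔ y ∈ L) := by
      intro y
      obtain ⟨V, hV, hVF, hyV, hVp⟩ := hVex y
      obtain ⟨V', hV', hyV', -, hun⟩ := h.unif hb hbase hV hVF hyV
      have hVc : Vᶜ ∈ p := Ultrafilter.compl_mem_iff_notMem.2 hVp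
      refine ⟨V', hV', hyV', fun u hu => ⟨fun h1 => ?_, fun h1 => ?_⟩⟩
      · exact mem_of_superset (inter_mem h1 hVc) fun x hx => (hun u hu x hx.2).1 hx.1
      · exact mem_of_superset (inter_mem h1 hVc) fun x hx => (hun u hu x hx.2).2 hx.1
    constructor
    · rw [← isOpen_compl_iff, isOpen_iff_mem_nhds]
      intro y hy
      obtain ⟨V', h1, h2, h3⟩ := key y
      exact mem_of_superset (h1.mem_nhds h2) fun u hu huL => hy ((h3 u hu).1 huL)
    · rw [isOpen_iff_mem_nhds]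
      intro y hy
      obtain ⟨V', h1, h2, h3⟩ := key y
      exact mem_of_superset (h1.mem_nhds h2) fun u hu => (h3 u hu).2 hy
  obtain ⟨z, hz, hking⟩ := hX.clopen h hLcl (p.nonempty_of_mem hL)
  obtain ⟨V, hV, hVF, hzV, hVp⟩ := hVex z
  have hVc : Vᶜ ∈ p := Ultrafilter.compl_mem_iff_notMem.2 hVp
  set P0 : Set X := (L ∩ Vᶜ) ∩ {x | R z x} with hP0
  have hP0p : P0 ∈ p := inter_mem (inter_mem hL hVc) hz
  set S : Set X := L ∩ (V ∪ {y | R y z}) with hS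
  have hScl : IsClopen S := by
    refine hLcl.inter ⟨?_, hV.isOpen.union (h.openL z)⟩
    have : (V ∪ {y | R y z})ᶜ = Vᶜ ∩ {y | R z y} := by
      ext x
      by_cases hx : x ∈ V
      · simp [hx]
      · have h1 : z ≠ x := by rintro rfl; exact hx hzV
        have h2 := h.total z x h1
        have h3 := h.asymm z x
        simp only [mem_compl_iff, mem_inter_iff, Set.mem_ofPred_eq, mem_union, hx, not_false_eq_true,
          true_and, false_or]
        tauto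
    rw [← isOpen_compl_iff, this]
    exact hV.compl.isOpen.inter (h.openR z)
  have hdis : ∀ x ∈ P0, x ∉ S := by
    rintro x ⟨⟨hxL, hxV⟩, hzx⟩ ⟨-, hx | hx⟩
    · exact hxV hx
    · exact h.asymm _ _ hzx hx
  set H : X → Set X := fun u => if u ∈ S then P0 ∩ {x | R u x} else ∅ with hH
  have hHlc : IsLocallyConstant H := by
    rw [IsLocallyConstant.iff_eventually_eq]
    intro y
    by_cases hy : y ∈ S
    · obtain ⟨D, hD, hDF, hyD, hDS⟩ := hbase y S hScl hy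
      obtain ⟨V', hV', hyV', hV'D, hun⟩ := h.unif hb hbase hD hDF hyD
      filter_upwards [hV'.mem_nhds hyV'] with u hu
      simp only [hH, if_pos (hDS (hV'D hu)), if_pos hy]
      ext x
      constructor
      · rintro ⟨h1, h2⟩
        exact ⟨h1, (hun u hu x (fun h3 => hdis x h1 (hDS h3))).1 h2⟩
      · rintro ⟨h1, h2⟩
        exact ⟨h1, (hun u hu x (fun h3 => hdis x h1 (hDS h3))).2 h2⟩
    · filter_upwards [hScl.compl.isOpen.mem_nhds hy] with u hu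
      simp only [hH, if_neg hy]
      rw [if_neg hu]
  have hfin := fin_range hb H hHlc
  have hint : ⋂₀ {s | s ∈ range H ∧ s ∈ p} ∈ (p : Filter X) :=
    (sInter_mem (hfin.subset fun s hs => hs.1)).2 fun s hs => hs.2
  obtain ⟨x, hx1, hx2⟩ := p.nonempty_of_mem (inter_mem hint hP0p)
  have hSx : ∀ u ∈ S, R u x := by
    intro u hu
    have h1 : H u ∈ p := by
      simp only [hH, if_pos hu]
      exact inter_mem hP0p hu.1
    have h2 : x ∈ H u := hx1 (H u) ⟨⟨u, rfl⟩, h1⟩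
    simp only [hH, if_pos hu] at h2
    exact h2.2
  obtain ⟨y, hyL, hyz, hxy⟩ := hking x hx2.1.1
  have hyS : y ∈ S := by
    refine ⟨hyL, ?_⟩
    rcases hyz with rfl | h1
    · exact Or.inl hzV
    · exact Or.inr h1
  have hyx := hSx y hyS
  rcases hxy with rfl | h1
  · exact h.irrefl _ hyx
  · exact h.asymm _ _ hyx h1

/-- the main theorem in terms of tournaments -/
theorem Kings.compactSpace [T35Space X] (hX : Kings X) {R : X → X → Prop} (h : IsT R) (hl : LFC X) :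
    CompactSpace X := by
  refine ⟨isCompact_iff_ultrafilter_le_nhds.2 fun p _ => ?_⟩
  by_contra hcon
  have hp : ∀ x, ¬ (p : Filter X) ≤ 𝓝 x := fun x hx => hcon ⟨x, mem_univ x, hx⟩
  by_cases hL : {y | {x | R y x} ∈ p} ∈ p
  · exact hX.final h hl p hp hL
  · refine hX.final h.flip hl p hp ?_
    have h1 : {y | {x | R y x} ∈ p}ᶜ ∈ p := Ultrafilter.compl_mem_iff_notMem.2 hL
    refine mem_of_superset h1 fun y hy => ?_
    have h2 : {x | R y x}ᶜ ∈ p := Ultrafilter.compl_mem_iff_notMem.2 hy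
    have h3 : ({y} : Set X)ᶜ ∈ p := by
      rw [Ultrafilter.compl_mem_iff_notMem]
      intro h3
      apply hp y
      intro N hN
      exact mem_of_superset h3 (singleton_subset_iff.2 (mem_of_mem_nhds hN))
    refine mem_of_superset (inter_mem h2 h3) fun x hx => ?_
    exact (h.total x y hx.2).resolve_right hx.1

end X198KS
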